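import Pool.Agent.Lib.MP_0d3db7.Defs

/-!
# MP_0d3db7_pr: a central limit theorem excludes concentration on the scale `√n`
-/

set_option autoImplicit false

namespace Pool.Agent.MP0d3db7

open MeasureTheory ProbabilityTheory Filter Topology Set

section

variable {w : ℤ → ℕ → ℝ}

theorem wt_nonneg (hw : ∀ z i, 0 ≤ w z i ∧ w z i ≤ 1) (h : List Bool) : 0 ≤ wt w h := by
  induction h with
  | nil => exact zero_le_one
  | cons b h ih =>
    cases b
    · exact mul_nonneg ih (by linarith [(hw (pos h) (vis h)).2])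
    · exact mul_nonneg ih (hw (pos h) (vis h)).1

theorem Pq_mono (hw : ∀ z i, 0 ≤ w z i ∧ w z i ≤ 1) (n : ℕ) {A B : Set ℤ} (hAB : A ⊆ B) :
    Pq w n A ≤ Pq w n B := by
  classical
  unfold Pq
  refine Finset.sum_le_sum fun e _ => ?_
  by_cases h1 : pos (List.ofFn e) ∈ A
  · rw [if_pos h1, if_pos (hAB h1)]
  · rw [if_neg h1]
    split_ifs
    · exact wt_nonneg hw _
    · exact le_refl 0

theorem Pq_univ (n : ℕ) : Pq w n univ = 1 := by
  classical
  rw [Pq_eq]
  refine (congrArg (fun Φ => Ex (fun h => w (pos h) (vis h)) Φ n []) ?_).trans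
    (Ex_const _ 1 n [])
  funext h
  exact if_pos (mem_univ _)

theorem Pq_diff (n : ℕ) {A B : Set ℤ} (hAB : A ⊆ B) :
    Pq w n (B \ A) = Pq w n B - Pq w n A := by
  classical
  unfold Pq
  rw [← Finset.sum_sub_distrib]
  refine Finset.sum_congr rfl fun e _ => ?_
  by_cases h1 : pos (List.ofFn e) ∈ A
  · rw [if_neg (fun h => h.2 h1), if_pos h1, if_pos (hAB h1), sub_self]
  · by_cases h2 : pos (List.ofFn e) ∈ B
    · rw [if_pos ⟨h2, h1⟩, if_pos h2, if_neg h1, sub_zero]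
    · rw [if_neg (fun h => h2 h.1), if_neg h2, if_neg h1, sub_zero]

theorem clt_window (hw : ∀ z i, 0 ≤ w z i ∧ w z i ≤ 1) (c : ℕ → ℝ) (v : NNReal) (hv : v ≠ 0)
    (hclt : ∀ x : ℝ, Tendsto (fun n : ℕ => Pq w n {z : ℤ | (z : ℝ) ≤ c n + x * Real.sqrt n}) atTop
      (𝓝 (gaussianReal 0 v (Iic x)).toReal)) :
    ∃ r > 0, ∃ ε > 0, ∀ᶠ n : ℕ in atTop, Pq w n {z : ℤ | |(z : ℝ)| ≤ r * Real.sqrt n} ≤ 1 - ε := by
  set μ := gaussianReal 0 v with hμ
  set F : ℝ → ℝ := fun x => (μ (Iic x)).toReal with hF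
  have hac : volume ≪ μ := gaussianReal_absolutelyContinuous' 0 hv
  have hne1 : μ (Iic 0) ≠ 0 := fun h => by
    have h1 := hac h
    rw [Real.volume_Iic] at h1
    exact ENNReal.top_ne_zero h1
  have hne2 : μ (Ioi 0) ≠ 0 := fun h => by
    have h1 := hac h
    rw [Real.volume_Ioi] at h1
    exact ENNReal.top_ne_zero h1
  have hF0 : 0 < F 0 := ENNReal.toReal_pos hne1 (measure_ne_top _ _)
  have hcompl : (μ (Ioi 0)).toReal = 1 - F 0 := by
    have h1 := measureReal_compl (μ := μ) (measurableSet_Iic (a := (0 : ℝ)))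
    rw [compl_Iic, probReal_univ] at h1
    exact h1
  have hF1 : F 0 < 1 := by
    have h1 : 0 < (μ (Ioi 0)).toReal := ENNReal.toReal_pos hne2 (measure_ne_top _ _)
    linarith
  -- small intervals
  obtain ⟨r, hr, hrF⟩ : ∃ r > 0, F (2 * r) - F (-(2 * r)) ≤ 1 / 2 := by
    haveI : NullSingletonClass μ := nullSingletonClass_gaussianReal hv
    have h1 : Tendsto (fun n : ℕ => μ (Icc (-(1 / ((n : ℝ) + 1))) (1 / ((n : ℝ) + 1)))) atTop
        (𝓝 (μ (⋂ n : ℕ, Icc (-(1 / ((n : ℝ) + 1))) (1 / ((n : ℝ) + 1))))) := by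
      refine tendsto_measure_iInter_atTop (fun n => measurableSet_Icc.nullMeasurableSet) ?_
        ⟨0, measure_ne_top _ _⟩
      intro m n hmn
      have h2 : 1 / ((n : ℝ) + 1) ≤ 1 / ((m : ℝ) + 1) := by
        have : (m : ℝ) ≤ n := by exact_mod_cast hmn
        gcongr
      exact Icc_subset_Icc (by linarith) h2
    have h2 : (⋂ n : ℕ, Icc (-(1 / ((n : ℝ) + 1))) (1 / ((n : ℝ) + 1))) = {0} := by
      ext x
      rw [mem_iInter, mem_singleton_iff]
      constructor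
      · intro h
        have h3 : ∀ n : ℕ, |x| ≤ 1 / ((n : ℝ) + 1) := fun n => abs_le.2 (h n)
        have h4 : |x| ≤ 0 := ge_of_tendsto' tendsto_one_div_add_atTop_nhds_zero_nat h3
        exact abs_eq_zero.1 (le_antisymm h4 (abs_nonneg x))
      · rintro rfl n
        have : 0 ≤ 1 / ((n : ℝ) + 1) := by positivity
        exact ⟨by linarith, this⟩
    rw [h2, measure_singleton] at h1
    have h3 := (tendsto_order.1 h1).2 (ENNReal.ofReal (1 / 2)) (ENNReal.ofReal_pos.2 (by norm_num))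
    obtain ⟨n, hn⟩ := h3.exists
    refine ⟨1 / ((n : ℝ) + 1) / 2, by positivity, ?_⟩
    have h4 : 2 * (1 / ((n : ℝ) + 1) / 2) = 1 / ((n : ℝ) + 1) := by ring
    rw [h4]
    have h5 : F (1 / ((n : ℝ) + 1)) - F (-(1 / ((n : ℝ) + 1))) =
        (μ (Ioc (-(1 / ((n : ℝ) + 1))) (1 / ((n : ℝ) + 1)))).toReal := by
      have h6 : Iic (-(1 / ((n : ℝ) + 1))) ⊆ Iic (1 / ((n : ℝ) + 1)) :=
        Iic_subset_Iic.2 (by have : 0 ≤ 1 / ((n : ℝ) + 1) := by positivity
                             linarith)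
      have h7 := measureReal_diff (μ := μ) h6 measurableSet_Iic
      have h8 : Iic (1 / ((n : ℝ) + 1)) \ Iic (-(1 / ((n : ℝ) + 1))) =
          Ioc (-(1 / ((n : ℝ) + 1))) (1 / ((n : ℝ) + 1)) := by
        ext x
        rw [mem_diff, mem_Iic, mem_Iic, mem_Ioc, not_le, and_comm]
      rw [h8] at h7
      exact h7.symm
    rw [h5]
    have h6 : μ (Ioc (-(1 / ((n : ℝ) + 1))) (1 / ((n : ℝ) + 1))) ≤ ENNReal.ofReal (1 / 2) :=
      (measure_mono Ioc_subset_Icc_self).trans hn.le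
    have h7 := ENNReal.toReal_mono ENNReal.ofReal_ne_top h6
    rwa [ENNReal.toReal_ofReal (by norm_num)] at h7
  -- the constant
  set ρ : ℝ := max (F 0) (max (1 - F 0) (1 / 2)) with hρ
  have hρ1 : ρ < 1 := max_lt hF1 (max_lt (by linarith) (by norm_num))
  have e1 : F 0 ≤ ρ := le_max_left _ _
  have e2 : 1 - F 0 ≤ ρ := (le_max_left _ _).trans (le_max_right _ _)
  have e3 : (1 : ℝ) / 2 ≤ ρ := (le_max_right _ _).trans (le_max_right _ _)
  refine ⟨r, hr, (1 - ρ) / 2, by linarith, ?_⟩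
  have t1 := (tendsto_order.1 (hclt 0)).2 ((1 + ρ) / 2) (by show F 0 < _; linarith)
  have t2 := (tendsto_order.1 (hclt 0)).1 ((1 - ρ) / 2) (by show _ < F 0; linarith)
  have t3 := (tendsto_order.1 ((hclt (2 * r)).sub (hclt (-(2 * r))))).2 ((1 + ρ) / 2)
    (by show F (2 * r) - F (-(2 * r)) < _; linarith)
  filter_upwards [t1, t2, t3, eventually_ge_atTop 1] with n h1 h2 h3 hn
  have hs : 0 ≤ r * Real.sqrt n := by positivity
  rw [zero_mul, add_zero] at h1 h2
  have goal1 : (1 : ℝ) - (1 - ρ) / 2 = (1 + ρ) / 2 := by ring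
  rw [goal1]
  by_cases c1 : r * Real.sqrt n ≤ c n
  · refine (Pq_mono hw n ?_).trans h1.le
    intro z hz
    have hz' : |(z : ℝ)| ≤ r * Real.sqrt n := hz
    have := (abs_le.1 hz').2
    show (z : ℝ) ≤ c n
    linarith
  by_cases c2 : c n < -(r * Real.sqrt n)
  · have h4 : Pq w n {z : ℤ | |(z : ℝ)| ≤ r * Real.sqrt n} ≤
        Pq w n (univ \ {z : ℤ | (z : ℝ) ≤ c n}) := by
      refine Pq_mono hw n ?_
      intro z hz
      refine ⟨mem_univ _, fun h5 => ?_⟩
      have hz' : |(z : ℝ)| ≤ r * Real.sqrt n := hz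
      have h6 := (abs_le.1 hz').1
      have h7 : (z : ℝ) ≤ c n := h5
      linarith
    rw [Pq_diff n (subset_univ _), Pq_univ] at h4
    linarith
  · rw [not_le] at c1
    rw [not_lt] at c2
    have h4 : Pq w n {z : ℤ | |(z : ℝ)| ≤ r * Real.sqrt n} ≤
        Pq w n ({z : ℤ | (z : ℝ) ≤ c n + 2 * r * Real.sqrt n} \
          {z : ℤ | (z : ℝ) ≤ c n + -(2 * r) * Real.sqrt n}) := by
      refine Pq_mono hw n ?_
      intro z hz
      have hz' : |(z : ℝ)| ≤ r * Real.sqrt n := hz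
      have h6 := abs_le.1 hz'
      refine ⟨?_, fun h5 => ?_⟩
      · show (z : ℝ) ≤ c n + 2 * r * Real.sqrt n
        linarith [h6.2]
      · have h7 : (z : ℝ) ≤ c n + -(2 * r) * Real.sqrt n := h5
        linarith [h6.1]
    rw [Pq_diff n] at h4
    · exact h4.trans h3.le
    · intro z hz
      have h7 : (z : ℝ) ≤ c n + -(2 * r) * Real.sqrt n := hz
      show (z : ℝ) ≤ c n + 2 * r * Real.sqrt n
      linarith

end

end Pool.Agent.MP0d3db7
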