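import Mathlib

/-!
# MP_0d3db7_pr: excited random walk on `ℤ` with i.i.d. cookies, definitions

A history is the list of the steps which were made, the last step first (`true` is `+1`, `false` is
`-1`).  `Ex β Φ n h` is the expectation of `Φ` (a function of the history) after `n` further steps,
when after the history `h'` the next step is `+1` with probability `β h'`.
-/

set_option autoImplicit false

namespace Pool.Agent.MP0d3db7

/-- the step -/
def stp (b : Bool) : ℤ := if b then 1 else -1

/-- the current position (start in `0`) -/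
def pos : List Bool → ℤ
  | [] => 0
  | b :: h => pos h + stp b

/-- the number of visits of `z` before the present time -/
def pv (z : ℤ) : List Bool → ℕ
  | [] => 0
  | _ :: h => pv z h + if pos h = z then 1 else 0

/-- `#{m ≤ n : X_m = X_n}`, the number of visits of the current position, the present one included -/
def vis (h : List Bool) : ℕ := pv (pos h) h + 1

/-- the quenched probability of the history in the environment `ω`; `ω z i` is the probability
of the step `+1` at the `i`-th visit of `z` -/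
def wt (ω : ℤ → ℕ → ℝ) : List Bool → ℝ
  | [] => 1
  | true :: h => wt ω h * ω (pos h) (vis h)
  | false :: h => wt ω h * (1 - ω (pos h) (vis h))

/-- the quenched expectation `E_{0,ω}[f(X_n)]`: the sum over all histories of length `n`
(`e 0` is the last step) -/
noncomputable def quenchE (ω : ℤ → ℕ → ℝ) (n : ℕ) (f : ℤ → ℝ) : ℝ :=
  ∑ e : Fin n → Bool, wt ω (List.ofFn e) * f (pos (List.ofFn e))

open Classical in
/-- the quenched probability `P_{0,ω}[X_n ∈ A]` -/
noncomputable def Pq (ω : ℤ → ℕ → ℝ) (n : ℕ) (A : Set ℤ) : ℝ :=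
  ∑ e : Fin n → Bool, if pos (List.ofFn e) ∈ A then wt ω (List.ofFn e) else 0

/-- the expectation of `Φ` after `n` further steps -/
def Ex (β : List Bool → ℝ) (Φ : List Bool → ℝ) : ℕ → List Bool → ℝ
  | 0, h => Φ h
  | n + 1, h => β h * Ex β Φ n (true :: h) + (1 - β h) * Ex β Φ n (false :: h)

/-- one step -/
def Ex1 (β : List Bool → ℝ) (Φ : List Bool → ℝ) (h : List Bool) : ℝ :=
  β h * Φ (true :: h) + (1 - β h) * Φ (false :: h)

theorem Ex_succ' (β Φ : List Bool → ℝ) (n : ℕ) (h : List Bool) :
    Ex β Φ (n + 1) h = Ex β (Ex1 β Φ) n h := by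
  induction n generalizing h with
  | zero => rfl
  | succ n ih =>
    show β h * Ex β Φ (n + 1) (true :: h) + (1 - β h) * Ex β Φ (n + 1) (false :: h) = _
    rw [ih, ih]
    rfl

theorem Ex_add (β Φ Ψ : List Bool → ℝ) (n : ℕ) (h : List Bool) :
    Ex β (fun x => Φ x + Ψ x) n h = Ex β Φ n h + Ex β Ψ n h := by
  induction n generalizing h with
  | zero => rfl
  | succ n ih =>
    show β h * Ex β _ n (true :: h) + (1 - β h) * Ex β _ n (false :: h) =
      (β h * Ex β Φ n (true :: h) + (1 - β h) * Ex β Φ n (false :: h)) +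
      (β h * Ex β Ψ n (true :: h) + (1 - β h) * Ex β Ψ n (false :: h))
    rw [ih, ih]
    ring

theorem Ex_mul (β Φ : List Bool → ℝ) (c : ℝ) (n : ℕ) (h : List Bool) :
    Ex β (fun x => c * Φ x) n h = c * Ex β Φ n h := by
  induction n generalizing h with
  | zero => rfl
  | succ n ih =>
    show β h * Ex β _ n (true :: h) + (1 - β h) * Ex β _ n (false :: h) =
      c * (β h * Ex β Φ n (true :: h) + (1 - β h) * Ex β Φ n (false :: h))
    rw [ih, ih]
    ring

theorem Ex_const (β : List Bool → ℝ) (c : ℝ) (n : ℕ) (h : List Bool) :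
    Ex β (fun _ => c) n h = c := by
  induction n generalizing h with
  | zero => rfl
  | succ n ih =>
    show β h * Ex β _ n (true :: h) + (1 - β h) * Ex β _ n (false :: h) = c
    rw [ih, ih]
    ring

/-- monotone: it is enough to compare the histories of length `|h| + n` -/
theorem Ex_mono {β : List Bool → ℝ} (hβ : ∀ h, 0 ≤ β h ∧ β h ≤ 1) {Φ Ψ : List Bool → ℝ}
    (n : ℕ) (h : List Bool) (hΦ : ∀ x : List Bool, x.length = h.length + n → Φ x ≤ Ψ x) :
    Ex β Φ n h ≤ Ex β Ψ n h := by
  induction n generalizing h with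
  | zero => exact hΦ h rfl
  | succ n ih =>
    have h1 := ih (true :: h) (fun x hx => hΦ x (by rw [hx, List.length_cons]; ring))
    have h2 := ih (false :: h) (fun x hx => hΦ x (by rw [hx, List.length_cons]; ring))
    show β h * Ex β Φ n (true :: h) + (1 - β h) * Ex β Φ n (false :: h) ≤
      β h * Ex β Ψ n (true :: h) + (1 - β h) * Ex β Ψ n (false :: h)
    have h3 := mul_le_mul_of_nonneg_left h1 (hβ h).1
    have h4 := mul_le_mul_of_nonneg_left h2 (by linarith [(hβ h).2] : 0 ≤ 1 - β h)
    linarith

/-- the path sum -/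
theorem sum_wt (ω : ℤ → ℕ → ℝ) (Φ : List Bool → ℝ) (n : ℕ) :
    ∑ e : Fin n → Bool, wt ω (List.ofFn e) * Φ (List.ofFn e) =
      Ex (fun h => ω (pos h) (vis h)) Φ n [] := by
  induction n generalizing Φ with
  | zero =>
    rw [Fintype.sum_unique]
    show wt ω (List.ofFn _) * Φ (List.ofFn _) = Φ []
    rw [List.ofFn_zero]
    show 1 * Φ [] = Φ []
    rw [one_mul]
  | succ n ih =>
    rw [Ex_succ', ← ih, ← (Fin.consEquiv fun _ : Fin (n + 1) => Bool).sum_comp,
      Fintype.sum_prod_type, Fintype.sum_bool, ← Finset.sum_add_distrib]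
    refine Finset.sum_congr rfl fun e _ => ?_
    show wt ω (List.ofFn (Fin.cons true e)) * Φ (List.ofFn (Fin.cons true e)) +
      wt ω (List.ofFn (Fin.cons false e)) * Φ (List.ofFn (Fin.cons false e)) = _
    rw [List.ofFn_cons, List.ofFn_cons]
    show wt ω (List.ofFn e) * ω _ _ * Φ _ + wt ω (List.ofFn e) * (1 - ω _ _) * Φ _ =
      wt ω (List.ofFn e) * (ω _ _ * Φ _ + (1 - ω _ _) * Φ _)
    ring

open Classical in
theorem Pq_eq (ω : ℤ → ℕ → ℝ) (n : ℕ) (A : Set ℤ) :
    Pq ω n A = Ex (fun h => ω (pos h) (vis h)) (fun h => if pos h ∈ A then 1 else 0) n [] := by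
  rw [← sum_wt]
  refine Finset.sum_congr rfl fun e _ => ?_
  split_ifs
  · rw [mul_one]
  · rw [mul_zero]

end Pool.Agent.MP0d3db7
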