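import Pool.Agent.Lib.MP_0d3db7.Tilt

/-!
# MP_0d3db7_pr: the density of the tilted environment
-/

set_option autoImplicit false

namespace Pool.Agent.MP0d3db7

open MeasureTheory ProbabilityTheory Filter Topology

/-- the cookies which can be reached in `N` steps -/
noncomputable def SS (N : ℕ) : Finset (ℤ × ℕ) := Finset.Icc (-(N : ℤ)) N ×ˢ Finset.range (N + 2)

theorem mem_SS {N : ℕ} {κ : ℤ × ℕ} : κ ∈ SS N ↔ |κ.1| ≤ N ∧ κ.2 < N + 2 := by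
  unfold SS
  rw [Finset.mem_product, Finset.mem_Icc, Finset.mem_range, abs_le]

theorem SS_mono : Monotone SS := by
  intro m n hmn κ hκ
  rw [mem_SS] at hκ ⊢
  have : (m : ℤ) ≤ n := by exact_mod_cast hmn
  exact ⟨hκ.1.trans this, by omega⟩

/-- one factor of the density -/
noncomputable def lam (s2 δ : ℝ) (x : ℝ) : ℝ := 1 + δ * (2 * x - 1) / s2

theorem lam_bd (s2 δ : ℝ) : Bd (lam s2 δ) := by
  refine ⟨by unfold lam; fun_prop, 1 + |δ| * 1 / |s2|, fun x h0 h1 => ?_⟩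
  unfold lam
  have h2 : |2 * x - 1| ≤ 1 := by rw [abs_le]; constructor <;> linarith
  calc |1 + δ * (2 * x - 1) / s2| ≤ |1| + |δ * (2 * x - 1) / s2| := abs_add_le _ _
    _ = 1 + |δ| * |2 * x - 1| / |s2| := by rw [abs_one, abs_div, abs_mul]
    _ ≤ 1 + |δ| * 1 / |s2| := by gcongr

theorem lam_dist {s2 δ x : ℝ} (hs : 0 < s2) (h0 : 0 ≤ x) (h1 : x ≤ 1) :
    |lam s2 δ x - 1| ≤ |δ| / s2 := by
  unfold lam
  have h2 : |2 * x - 1| ≤ 1 := by rw [abs_le]; constructor <;> linarith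
  rw [add_sub_cancel_left, abs_div, abs_mul, abs_of_pos hs]
  gcongr
  calc |δ| * |2 * x - 1| ≤ |δ| * 1 := mul_le_mul_of_nonneg_left h2 (abs_nonneg _)
    _ = |δ| := mul_one _

theorem lam_nonneg {s2 δ x : ℝ} (hs : 0 < s2) (hδ : |δ| ≤ s2) (h0 : 0 ≤ x) (h1 : x ≤ 1) :
    0 ≤ lam s2 δ x := by
  have h2 := lam_dist (δ := δ) hs h0 h1
  have h3 : |δ| / s2 ≤ 1 := (div_le_one hs).2 hδ
  have := (abs_le.1 (h2.trans h3)).1
  linarith

/-- the environment: independent cookies with values in `[0, 1]`, mean `1/2` and variance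
parameter `s2` -/
structure Env {Ω : Type} [MeasurableSpace Ω] (P : Measure Ω) (W : ℤ × ℕ → Ω → ℝ) (s2 : ℝ) :
    Prop where
  pr : IsProbabilityMeasure P
  ind : iIndepFun W P
  meas : ∀ κ, Measurable (W κ)
  mem : ∀ κ o, 0 ≤ W κ o ∧ W κ o ≤ 1
  mean : ∀ κ, ∫ o, W κ o ∂P = 1 / 2
  spos : 0 < s2
  var : ∀ κ, ∫ o, (2 * W κ o - 1) ^ 2 ∂P = s2

section

variable {Ω : Type} [MeasurableSpace Ω] {P : Measure Ω} {W : ℤ × ℕ → Ω → ℝ} {s2 : ℝ}

theorem Env.int1 (hE : Env P W s2) {G : ℝ → ℝ} (hG : Bd G) (κ : ℤ × ℕ) :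
    Integrable (fun o => G (W κ o)) P := by
  haveI := hE.pr
  have := prod_integrable (P := P) hE.meas hE.mem {κ} (fun _ => G) (fun _ => hG)
  simpa using this

theorem Env.mean' (hE : Env P W s2) (κ : ℤ × ℕ) : ∫ o, (2 * W κ o - 1) ∂P = 0 := by
  haveI := hE.pr
  have h1 : Integrable (fun o => W κ o) P := hE.int1 bd_id κ
  rw [integral_sub (h1.const_mul 2) (integrable_const 1), integral_const_mul, hE.mean,
    integral_const, probReal_univ]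
  simp

theorem bd_lin : Bd fun x => 2 * x - 1 :=
  ⟨by fun_prop, 1, fun x h0 h1 => by rw [abs_le]; constructor <;> linarith⟩

theorem bd_lin2 : Bd fun x => (2 * x - 1) ^ 2 := by
  have := bd_lin.mul bd_lin
  simpa [sq] using this

theorem Env.quad (hE : Env P W s2) (A B C : ℝ) (κ : ℤ × ℕ) :
    ∫ o, ((A + B * (2 * W κ o - 1) ^ 2) + C * (2 * W κ o - 1)) ∂P = A + B * s2 := by
  haveI := hE.pr
  have i1 : Integrable (fun o => B * (2 * W κ o - 1) ^ 2) P := (hE.int1 bd_lin2 κ).const_mul _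
  have i2 : Integrable (fun o => C * (2 * W κ o - 1)) P := (hE.int1 bd_lin κ).const_mul _
  have i3 : Integrable (fun o => A + B * (2 * W κ o - 1) ^ 2) P := (integrable_const A).add i1
  rw [integral_add i3 i2, integral_add (integrable_const A) i1, integral_const_mul,
    integral_const_mul, hE.mean', hE.var, integral_const, probReal_univ]
  simp

theorem Env.lam1 (hE : Env P W s2) (δ : ℝ) (κ : ℤ × ℕ) : ∫ o, lam s2 δ (W κ o) ∂P = 1 := by
  have h1 : ∀ o, lam s2 δ (W κ o) =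
      (1 + 0 * (2 * W κ o - 1) ^ 2) + (δ / s2) * (2 * W κ o - 1) := fun o => by
    unfold lam; ring
  simp_rw [h1]
  rw [hE.quad]
  ring

theorem Env.lam2 (hE : Env P W s2) (δ : ℝ) (κ : ℤ × ℕ) :
    ∫ o, lam s2 δ (W κ o) * W κ o ∂P = (1 + δ) / 2 := by
  have h1 : ∀ o, lam s2 δ (W κ o) * W κ o =
      (1 / 2 + (δ / s2 / 2) * (2 * W κ o - 1) ^ 2) +
        (1 / 2 + δ / s2 / 2) * (2 * W κ o - 1) := fun o => by
    unfold lam; ring
  simp_rw [h1]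
  rw [hE.quad]
  have := hE.spos
  field_simp

theorem Env.lam3 (hE : Env P W s2) (δ : ℝ) (κ : ℤ × ℕ) :
    ∫ o, lam s2 δ (W κ o) ^ 2 ∂P = 1 + δ ^ 2 / s2 := by
  have h1 : ∀ o, lam s2 δ (W κ o) ^ 2 =
      (1 + (δ ^ 2 / s2 ^ 2) * (2 * W κ o - 1) ^ 2) + (2 * δ / s2) * (2 * W κ o - 1) := fun o => by
    unfold lam; ring
  simp_rw [h1]
  rw [hE.quad]
  have := hE.spos
  field_simp

/-- the density -/
noncomputable def Lam (W : ℤ × ℕ → Ω → ℝ) (s2 θ a c : ℝ) (N : ℕ) (S : Finset (ℤ × ℕ)) (o : Ω) : ℝ :=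
  ∏ κ ∈ S, lam s2 (del θ a c N κ.1 κ.2) (W κ o)

theorem Env.Lam_int (hE : Env P W s2) (θ a c : ℝ) (N : ℕ) (S : Finset (ℤ × ℕ)) :
    Integrable (Lam W s2 θ a c N S) P := by
  haveI := hE.pr
  exact prod_integrable hE.meas hE.mem S (fun κ => lam s2 (del θ a c N κ.1 κ.2))
    (fun κ => lam_bd _ _)

theorem Env.Lam_one (hE : Env P W s2) (θ a c : ℝ) (N : ℕ) (S : Finset (ℤ × ℕ)) :
    ∫ o, Lam W s2 θ a c N S o ∂P = 1 := by
  haveI := hE.pr
  have h1 := int_prod hE.ind hE.meas S (fun κ => lam s2 (del θ a c N κ.1 κ.2))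
    (fun κ => (lam_bd _ _).1)
  refine h1.trans (Finset.prod_eq_one fun κ _ => hE.lam1 _ κ)

/-- the number of the cookies in the box -/
theorem card_box {θ a c : ℝ} (hθ : 0 ≤ θ) (ha : 0 ≤ a) (hc : 0 ≤ c) {N : ℕ} (hN : 1 ≤ N)
    (S : Finset (ℤ × ℕ)) :
    ∑ κ ∈ S, del θ a c N κ.1 κ.2 ^ 2 ≤ (2 * a + 1) * (c + 1) * (θ * a) ^ 2 := by
  classical
  have hN' : (0 : ℝ) < N := by exact_mod_cast hN
  have hN1 : (1 : ℝ) ≤ N := by exact_mod_cast hN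
  have hs : 0 < Real.sqrt N := Real.sqrt_pos.2 hN'
  have hs1 : 1 ≤ Real.sqrt N := by
    rw [show (1 : ℝ) = Real.sqrt 1 by simp]
    exact Real.sqrt_le_sqrt hN1
  have hs2 : Real.sqrt N * Real.sqrt N = N := Real.mul_self_sqrt hN'.le
  set B : Finset (ℤ × ℕ) := Finset.Icc (-⌊a * Real.sqrt N⌋) ⌊a * Real.sqrt N⌋ ×ˢ
    Finset.range (⌊c * Real.sqrt N⌋₊ + 1) with hB
  have h1 : ∀ κ : ℤ × ℕ, κ ∉ B → del θ a c N κ.1 κ.2 = 0 := by
    intro κ hκ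
    unfold del
    rw [if_neg]
    rintro ⟨h2, h3⟩
    apply hκ
    rw [hB, Finset.mem_product, Finset.mem_Icc, Finset.mem_range]
    have h4 := abs_le.1 h2
    refine ⟨⟨?_, ?_⟩, ?_⟩
    · have : -κ.1 ≤ ⌊a * Real.sqrt N⌋ := Int.le_floor.2 (by push_cast; linarith [h4.1])
      linarith
    · exact Int.le_floor.2 h4.2
    · exact Nat.lt_succ_of_le (Nat.le_floor h3)
  have h2 : ∑ κ ∈ S, del θ a c N κ.1 κ.2 ^ 2 ≤ ∑ κ ∈ B, del θ a c N κ.1 κ.2 ^ 2 := by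
    calc ∑ κ ∈ S, del θ a c N κ.1 κ.2 ^ 2
        = ∑ κ ∈ S ∩ B, del θ a c N κ.1 κ.2 ^ 2 := by
          symm
          refine Finset.sum_subset Finset.inter_subset_left ?_
          intro κ hκ hκ2
          rw [h1 κ (fun h => hκ2 (Finset.mem_inter.2 ⟨hκ, h⟩))]
          ring
      _ ≤ _ := Finset.sum_le_sum_of_subset_of_nonneg Finset.inter_subset_right
          (fun _ _ _ => sq_nonneg _)
  have h3 : ∑ κ ∈ B, del θ a c N κ.1 κ.2 ^ 2 ≤ ∑ κ ∈ B, (θ * a / Real.sqrt N) ^ 2 := by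
    refine Finset.sum_le_sum fun κ _ => ?_
    rw [← sq_abs (del θ a c N κ.1 κ.2)]
    exact pow_le_pow_left₀ (abs_nonneg _) (abs_del hθ ha hN κ.1 κ.2) 2
  have h4 : (B.card : ℝ) ≤ ((2 * a + 1) * Real.sqrt N) * ((c + 1) * Real.sqrt N) := by
    rw [hB, Finset.card_product, Int.card_Icc, Finset.card_range]
    push_cast
    have h5 : (((⌊a * Real.sqrt N⌋ + 1 - -⌊a * Real.sqrt N⌋).toNat : ℕ) : ℝ) ≤
        (2 * a + 1) * Real.sqrt N := by
      have h6 : 0 ≤ ⌊a * Real.sqrt N⌋ := Int.floor_nonneg.2 (by positivity)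
      have h7 : (((⌊a * Real.sqrt N⌋ + 1 - -⌊a * Real.sqrt N⌋).toNat : ℕ) : ℤ) =
          ⌊a * Real.sqrt N⌋ + 1 - -⌊a * Real.sqrt N⌋ := Int.toNat_of_nonneg (by linarith)
      have h8 : (((⌊a * Real.sqrt N⌋ + 1 - -⌊a * Real.sqrt N⌋).toNat : ℕ) : ℝ) =
          2 * (⌊a * Real.sqrt N⌋ : ℝ) + 1 := by
        have h9 := congrArg (Int.cast : ℤ → ℝ) h7
        push_cast at h9
        rw [h9]; ring
      rw [h8]
      have := Int.floor_le (a * Real.sqrt N)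
      nlinarith
    have h6 : (⌊c * Real.sqrt N⌋₊ : ℝ) + 1 ≤ (c + 1) * Real.sqrt N := by
      have := Nat.floor_le (by positivity : 0 ≤ c * Real.sqrt N)
      nlinarith
    exact mul_le_mul h5 h6 (by positivity) (by positivity)
  rw [Finset.sum_const, nsmul_eq_mul] at h3
  refine (h2.trans h3).trans ?_
  calc (B.card : ℝ) * (θ * a / Real.sqrt N) ^ 2
      ≤ (((2 * a + 1) * Real.sqrt N) * ((c + 1) * Real.sqrt N)) * (θ * a / Real.sqrt N) ^ 2 :=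
        mul_le_mul_of_nonneg_right h4 (sq_nonneg _)
    _ = (2 * a + 1) * (c + 1) * (θ * a) ^ 2 := by
        field_simp

theorem Env.Lam_sq (hE : Env P W s2) {θ a c : ℝ} (hθ : 0 ≤ θ) (ha : 0 ≤ a) (hc : 0 ≤ c) {N : ℕ}
    (hN : 1 ≤ N) (S : Finset (ℤ × ℕ)) :
    Integrable (fun o => Lam W s2 θ a c N S o ^ 2) P ∧
    ∫ o, Lam W s2 θ a c N S o ^ 2 ∂P ≤ Real.exp ((2 * a + 1) * (c + 1) * (θ * a) ^ 2 / s2) := by
  haveI := hE.pr
  have hbd : ∀ κ : ℤ × ℕ, Bd fun x => lam s2 (del θ a c N κ.1 κ.2) x ^ 2 := by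
    intro κ
    have := (lam_bd s2 (del θ a c N κ.1 κ.2)).mul (lam_bd s2 (del θ a c N κ.1 κ.2))
    simpa [sq] using this
  have h1 : ∀ o, Lam W s2 θ a c N S o ^ 2 =
      ∏ κ ∈ S, (fun x => lam s2 (del θ a c N κ.1 κ.2) x ^ 2) (W κ o) := by
    intro o
    unfold Lam
    rw [Finset.prod_pow]
  simp_rw [h1]
  refine ⟨prod_integrable hE.meas hE.mem S
    (fun κ => fun x => lam s2 (del θ a c N κ.1 κ.2) x ^ 2) hbd, ?_⟩
  rw [int_prod hE.ind hE.meas S (fun κ => fun x => lam s2 (del θ a c N κ.1 κ.2) x ^ 2)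
    (fun κ => (hbd κ).1)]
  have h2 : ∀ κ ∈ S, ∫ o, lam s2 (del θ a c N κ.1 κ.2) (W κ o) ^ 2 ∂P ≤
      Real.exp (del θ a c N κ.1 κ.2 ^ 2 / s2) := by
    intro κ _
    rw [hE.lam3]
    have := Real.add_one_le_exp (del θ a c N κ.1 κ.2 ^ 2 / s2)
    linarith
  refine (Finset.prod_le_prod (fun κ _ => integral_nonneg fun _ => sq_nonneg _) h2).trans ?_
  rw [← Real.exp_sum, ← Finset.sum_div]
  exact Real.exp_le_exp.2 (div_le_div_of_nonneg_right (card_box hθ ha hc hN S) hE.spos.le)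

theorem Env.Lam_nonneg (hE : Env P W s2) {θ a c : ℝ} (hθ : 0 ≤ θ) (ha : 0 ≤ a) {N : ℕ}
    (hN : 1 ≤ N) (h1 : θ * a / Real.sqrt N ≤ s2) (S : Finset (ℤ × ℕ)) (o : Ω) :
    0 ≤ Lam W s2 θ a c N S o :=
  Finset.prod_nonneg fun κ _ => lam_nonneg hE.spos ((abs_del hθ ha hN κ.1 κ.2).trans h1)
    (hE.mem κ o).1 (hE.mem κ o).2

/-- the walk in the tilted environment -/
theorem Env.tilt (hE : Env P W s2) (θ a c : ℝ) (N : ℕ) (Φ : List Bool → ℝ) :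
    Integrable (fun o => Lam W s2 θ a c N (SS N) o *
      Ex (fun x => W (pos x, vis x) o) Φ N []) P ∧
    ∫ o, Lam W s2 θ a c N (SS N) o *
      Ex (fun x => W (pos x, vis x) o) Φ N [] ∂P =
      Ex (bet fun h => del θ a c N (pos h) (vis h)) Φ N [] := by
  haveI := hE.pr
  obtain ⟨h1, h2⟩ := tilt_gen hE.ind hE.meas hE.mem
    (fun κ => lam s2 (del θ a c N κ.1 κ.2)) (fun z i => (1 + del θ a c N z i) / 2)
    (fun κ => hE.lam1 _ κ) (fun κ => hE.lam2 _ κ) (SS N) N (fun κ => lam_bd _ _)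
    (fun z i hz hi => mem_SS.2 ⟨hz, by show i < N + 2; omega⟩) Φ N [] (by simp)
    (fun κ => lam s2 (del θ a c N κ.1 κ.2)) (fun κ => lam_bd _ _) (fun _ _ _ => rfl)
  refine ⟨h1, h2.trans ?_⟩
  rw [Finset.prod_eq_one (fun κ _ => hE.lam1 _ κ), one_mul]
  rfl

end

end Pool.Agent.MP0d3db7
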