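import Pool.Agent.Lib.MP_0d3db7.Main

/-!
# MP_0d3db7_pr: concentration along a subsequence excludes non-degenerate limit laws
-/

set_option autoImplicit false

namespace Pool.Agent.MP0d3db7

open MeasureTheory ProbabilityTheory Filter Topology

theorem quenchE_eq (w : ℤ → ℕ → ℝ) (n : ℕ) (f : ℤ → ℝ) :
    quenchE w n f = Ex (fun h => w (pos h) (vis h)) (fun h => f (pos h)) n [] :=
  sum_wt w (fun h => f (pos h)) n

theorem quenchE_mono {w : ℤ → ℕ → ℝ} (hw : ∀ z i, 0 ≤ w z i ∧ w z i ≤ 1) (n : ℕ) {f g : ℤ → ℝ}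
    (h : ∀ z, f z ≤ g z) : quenchE w n f ≤ quenchE w n g := by
  rw [quenchE_eq, quenchE_eq]
  exact Ex_mono (fun x => hw _ _) n [] (fun x _ => h _)

theorem quenchE_add (w : ℤ → ℕ → ℝ) (n : ℕ) (f g : ℤ → ℝ) :
    quenchE w n (fun z => f z + g z) = quenchE w n f + quenchE w n g := by
  rw [quenchE_eq, quenchE_eq, quenchE_eq]
  exact Ex_add _ _ _ n []

theorem quenchE_mul (w : ℤ → ℕ → ℝ) (n : ℕ) (c : ℝ) (f : ℤ → ℝ) :
    quenchE w n (fun z => c * f z) = c * quenchE w n f := by
  rw [quenchE_eq, quenchE_eq]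
  exact Ex_mul _ _ c n []

theorem quenchE_const (w : ℤ → ℕ → ℝ) (n : ℕ) (c : ℝ) : quenchE w n (fun _ => c) = c := by
  rw [quenchE_eq]
  exact Ex_const _ c n []

open Classical in
theorem quenchE_ind (w : ℤ → ℕ → ℝ) (n : ℕ) (A : Set ℤ) :
    quenchE w n (fun z => if z ∈ A then 1 else 0) = Pq w n A := by
  rw [quenchE_eq, Pq_eq]

/-- the variance of `arctan` of the centred walk -/
theorem var_le {w : ℤ → ℕ → ℝ} (hw : ∀ z i, 0 ≤ w z i ∧ w z i ≤ 1) (n : ℕ) (hn : 1 ≤ n) (c : ℝ)
    {r ε : ℝ} (hP : 1 - ε < Pq w n {z : ℤ | |(z : ℝ)| ≤ r * Real.sqrt n}) :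
    quenchE w n (fun z => Real.arctan ((z - c) / Real.sqrt n) ^ 2) -
      quenchE w n (fun z => Real.arctan ((z - c) / Real.sqrt n)) ^ 2 ≤ r ^ 2 + 16 * ε := by
  classical
  have hn' : (0 : ℝ) < n := by exact_mod_cast hn
  have hs : 0 < Real.sqrt n := Real.sqrt_pos.2 hn'
  set g : ℤ → ℝ := fun z => Real.arctan ((z - c) / Real.sqrt n) with hg
  set d : ℝ := Real.arctan (-c / Real.sqrt n) with hd
  have hlip : ∀ x y : ℝ, |Real.arctan x - Real.arctan y| ≤ |x - y| := by
    have h1 : LipschitzWith 1 Real.arctan := by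
      refine lipschitzWith_of_nnnorm_deriv_le Real.differentiable_arctan fun x => ?_
      rw [← NNReal.coe_le_coe, coe_nnnorm, Real.deriv_arctan, Real.norm_eq_abs,
        abs_of_nonneg (by positivity)]
      rw [NNReal.coe_one, div_le_one (by positivity)]
      nlinarith [sq_nonneg x]
    intro x y
    have h2 := h1.dist_le_mul x y
    rw [NNReal.coe_one, one_mul, Real.dist_eq, Real.dist_eq] at h2
    exact h2
  have hbd : ∀ x : ℝ, |Real.arctan x| ≤ 2 := by
    intro x
    have h1 := Real.arctan_lt_pi_div_two x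
    have h2 := Real.neg_pi_div_two_lt_arctan x
    have h3 := Real.pi_lt_four
    rw [abs_le]
    constructor <;> linarith
  have h1 : quenchE w n (fun z => g z ^ 2) - quenchE w n g ^ 2 ≤
      quenchE w n (fun z => (g z - d) ^ 2) := by
    have h2 : (fun z => (g z - d) ^ 2) = fun z => (g z ^ 2 + (-2 * d) * g z) + d ^ 2 := by
      funext z; ring
    rw [h2, quenchE_add, quenchE_add, quenchE_mul, quenchE_const]
    nlinarith [sq_nonneg (quenchE w n g - d)]
  refine h1.trans ?_
  set A : Set ℤ := {z : ℤ | |(z : ℝ)| ≤ r * Real.sqrt n} with hA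
  have h2 : quenchE w n (fun z => (g z - d) ^ 2) ≤
      quenchE w n (fun z => (r ^ 2 + 16) + (-16) * (if z ∈ A then 1 else 0)) := by
    refine quenchE_mono hw n fun z => ?_
    by_cases hz : z ∈ A
    · rw [if_pos hz]
      have h3 : |g z - d| ≤ r := by
        refine (hlip _ _).trans ?_
        have h4 : ((z : ℝ) - c) / Real.sqrt n - -c / Real.sqrt n = z / Real.sqrt n := by ring
        rw [h4, abs_div, abs_of_pos hs, div_le_iff₀ hs]
        exact hz
      have h4 : (g z - d) ^ 2 ≤ r ^ 2 := by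
        rw [← sq_abs (g z - d)]
        exact pow_le_pow_left₀ (abs_nonneg _) h3 2
      linarith
    · rw [if_neg hz]
      have h3 : |g z - d| ≤ 4 := by
        have h4 := abs_sub (g z) d
        have h5 := hbd ((z - c) / Real.sqrt n)
        have h6 := hbd (-c / Real.sqrt n)
        linarith
      have h4 : (g z - d) ^ 2 ≤ 4 ^ 2 := by
        rw [← sq_abs (g z - d)]
        exact pow_le_pow_left₀ (abs_nonneg _) h3 2
      nlinarith [sq_nonneg r]
  rw [quenchE_add, quenchE_const, quenchE_mul, quenchE_ind] at h2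
  linarith

theorem dirac_of_var {μ : Measure ℝ} [IsProbabilityMeasure μ]
    (h : ∫ x, Real.arctan x ^ 2 ∂μ - (∫ x, Real.arctan x ∂μ) ^ 2 ≤ 0) :
    ∃ x, μ = Measure.dirac x := by
  have hbd : ∀ x : ℝ, |Real.arctan x| ≤ 2 := by
    intro x
    have h1 := Real.arctan_lt_pi_div_two x
    have h2 := Real.neg_pi_div_two_lt_arctan x
    have h3 := Real.pi_lt_four
    rw [abs_le]
    constructor <;> linarith
  have hi : Integrable Real.arctan μ :=
    Integrable.of_bound Real.continuous_arctan.aestronglyMeasurable 2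
      (Eventually.of_forall fun x => by rw [Real.norm_eq_abs]; exact hbd x)
  have hi2 : Integrable (fun x => Real.arctan x ^ 2) μ :=
    Integrable.of_bound (Real.continuous_arctan.pow 2).aestronglyMeasurable 4
      (Eventually.of_forall fun x => by
        rw [Real.norm_eq_abs, abs_pow]
        have := pow_le_pow_left₀ (abs_nonneg _) (hbd x) 2
        linarith)
  set m := ∫ x, Real.arctan x ∂μ with hm
  have h1 : ∫ x, (Real.arctan x - m) ^ 2 ∂μ ≤ 0 := by
    have h2 : ∀ x, (Real.arctan x - m) ^ 2 = (Real.arctan x ^ 2 + (-2 * m) * Real.arctan x) +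
        m ^ 2 := fun x => by ring
    have i1 : Integrable (fun x => (-2 * m) * Real.arctan x) μ := hi.const_mul _
    have i2 : Integrable (fun x => Real.arctan x ^ 2 + (-2 * m) * Real.arctan x) μ := hi2.add i1
    simp_rw [h2]
    rw [integral_add i2 (integrable_const _), integral_add hi2 i1, integral_const_mul,
      integral_const, probReal_univ, one_smul, ← hm]
    linarith
  have hi3 : Integrable (fun x => (Real.arctan x - m) ^ 2) μ := by
    have h2 : (fun x => (Real.arctan x - m) ^ 2) = fun x =>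
        (Real.arctan x ^ 2 + (-2 * m) * Real.arctan x) + m ^ 2 := by
      funext x; ring
    rw [h2]
    exact (hi2.add (hi.const_mul _)).add (integrable_const _)
  have h3 : ∫ x, (Real.arctan x - m) ^ 2 ∂μ = 0 :=
    le_antisymm h1 (integral_nonneg fun _ => sq_nonneg _)
  have h4 := (integral_eq_zero_iff_of_nonneg (fun x => sq_nonneg (Real.arctan x - m)) hi3).1 h3
  have h5 : ∀ᵐ x ∂μ, Real.arctan x = m := by
    filter_upwards [h4] with x hx
    have h6 : (Real.arctan x - m) ^ 2 = 0 := hx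
    have h7 := pow_eq_zero_iff (two_ne_zero) |>.1 h6
    linarith
  obtain ⟨x₀, hx₀⟩ := h5.exists
  refine ⟨x₀, ?_⟩
  have h6 : (id : ℝ → ℝ) =ᵐ[μ] fun _ => x₀ := by
    filter_upwards [h5] with x hx
    exact Real.arctan_injective (hx.trans hx₀.symm)
  calc μ = μ.map id := Measure.map_id.symm
    _ = μ.map (fun _ => x₀) := Measure.map_congr h6
    _ = Measure.dirac x₀ := by rw [Measure.map_const, measure_univ, one_smul]

section

variable {Ω : Type} [mΩ : MeasurableSpace Ω] {P : Measure Ω} {W : ℤ × ℕ → Ω → ℝ} {s2 : ℝ}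

theorem Env.lim (hE : Env P W s2) :
    ∀ᵐ o ∂P, ∀ (c : ℕ → ℝ) (μ : Measure ℝ), IsProbabilityMeasure μ →
      (∀ f : BoundedContinuousFunction ℝ ℝ, Tendsto (fun n : ℕ =>
        quenchE (envW W o) n fun z => f ((z - c n) / Real.sqrt n)) atTop (𝓝 (∫ x, f x ∂μ))) →
      ∃ x, μ = Measure.dirac x := by
  filter_upwards [hE.main] with o ho
  intro c μ hμ hlim
  have hw : ∀ z i, 0 ≤ envW W o z i ∧ envW W o z i ≤ 1 := fun z i => hE.mem (z, i) o
  have hbd : ∀ x : ℝ, |Real.arctan x| ≤ 2 := by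
    intro x
    have h1 := Real.arctan_lt_pi_div_two x
    have h2 := Real.neg_pi_div_two_lt_arctan x
    have h3 := Real.pi_lt_four
    rw [abs_le]
    constructor <;> linarith
  let f1 : BoundedContinuousFunction ℝ ℝ :=
    BoundedContinuousFunction.ofNormedAddCommGroup Real.arctan Real.continuous_arctan 2
      (fun x => by rw [Real.norm_eq_abs]; exact hbd x)
  let f2 : BoundedContinuousFunction ℝ ℝ :=
    BoundedContinuousFunction.ofNormedAddCommGroup (fun x => Real.arctan x ^ 2)
      (Real.continuous_arctan.pow 2) 4 (fun x => by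
        rw [Real.norm_eq_abs, abs_pow]
        have := pow_le_pow_left₀ (abs_nonneg _) (hbd x) 2
        linarith)
  have h1 : Tendsto (fun n : ℕ => quenchE (envW W o) n
      fun z => Real.arctan ((z - c n) / Real.sqrt n)) atTop (𝓝 (∫ x, Real.arctan x ∂μ)) := hlim f1
  have h2 : Tendsto (fun n : ℕ => quenchE (envW W o) n
      fun z => Real.arctan ((z - c n) / Real.sqrt n) ^ 2) atTop
      (𝓝 (∫ x, Real.arctan x ^ 2 ∂μ)) := hlim f2
  have h3 := h2.sub (h1.pow 2)
  apply dirac_of_var
  by_contra hcon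
  rw [not_le] at hcon
  set V := ∫ x, Real.arctan x ^ 2 ∂μ - (∫ x, Real.arctan x ∂μ) ^ 2 with hV
  -- choose `r` and `ε`
  have h4 := (tendsto_order.1 h3).1 (V / 2) (by linarith)
  have hr : 0 < Real.sqrt (V / 8) := Real.sqrt_pos.2 (by positivity)
  have h5 := (ho.1 (Real.sqrt (V / 8)) hr (V / 64) (by positivity)).and_eventually
    (h4.and (eventually_ge_atTop 1))
  obtain ⟨n, h6, h7, hn⟩ := h5.exists
  have h8 := var_le hw n hn (c n) h6
  rw [Real.sq_sqrt (by positivity)] at h8
  linarith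

end

end Pool.Agent.MP0d3db7
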