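import Pool.Agent.Lib.MP_0d3db7.Weak
import Pool.Agent.Lib.MP_0d3db7.Clt

/-!
# MP_0d3db7_pr: the quenched laws concentrate near the origin along a subsequence
-/

set_option autoImplicit false

namespace Pool.Agent.MP0d3db7

open MeasureTheory ProbabilityTheory Filter Topology

section

variable {Ω : Type} [mΩ : MeasurableSpace Ω] {P : Measure Ω} {W : ℤ × ℕ → Ω → ℝ} {s2 : ℝ}

/-- the environment as a function of the site and the index -/
def envW (W : ℤ × ℕ → Ω → ℝ) (o : Ω) (z : ℤ) (i : ℕ) : ℝ := W (z, i) o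

theorem Ex_measurable {m' : MeasurableSpace Ω} (hW : ∀ κ, Measurable[m'] (W κ)) (Φ : List Bool → ℝ)
    (n : ℕ) (h : List Bool) :
    Measurable[m'] fun o => Ex (fun x => W (pos x, vis x) o) Φ n h := by
  induction n generalizing h with
  | zero => exact measurable_const
  | succ n ih =>
    show Measurable[m'] fun o => W (pos h, vis h) o *
      Ex (fun x => W (pos x, vis x) o) Φ n (true :: h) +
      (1 - W (pos h, vis h) o) * Ex (fun x => W (pos x, vis x) o) Φ n (false :: h)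
    exact ((hW _).mul (ih _)).add ((measurable_const.sub (hW _)).mul (ih _))

theorem Pq_measurable {m' : MeasurableSpace Ω} (hW : ∀ κ, Measurable[m'] (W κ)) (n : ℕ)
    (A : Set ℤ) : Measurable[m'] fun o => Pq (envW W o) n A := by
  classical
  have h1 : (fun o => Pq (envW W o) n A) = fun o => Ex (fun x => W (pos x, vis x) o)
      (fun h => if pos h ∈ A then 1 else 0) n [] := by
    funext o
    rw [Pq_eq]
    rfl
  rw [h1]
  exact Ex_measurable hW _ n []

theorem A_measurable {m' : MeasurableSpace Ω} (hW : ∀ κ, Measurable[m'] (W κ)) (r ε : ℝ)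
    (N₀ : ℕ) : MeasurableSet[m'] {o | ∀ N, N₀ ≤ N →
      Pq (envW W o) N {z : ℤ | |(z : ℝ)| ≤ r * Real.sqrt N} ≤ 1 - ε} := by
  have h1 : {o | ∀ N, N₀ ≤ N →
      Pq (envW W o) N {z : ℤ | |(z : ℝ)| ≤ r * Real.sqrt N} ≤ 1 - ε} = ⋂ N : ℕ, ⋂ _ : N₀ ≤ N,
      {o | Pq (envW W o) N {z : ℤ | |(z : ℝ)| ≤ r * Real.sqrt N} ≤ 1 - ε} := by
    ext o
    simp
  rw [h1]
  refine MeasurableSet.iInter fun N => MeasurableSet.iInter fun _ => ?_
  exact measurableSet_le (Pq_measurable hW N _) measurable_const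

/-- Chebyshev -/
theorem cheb {w : ℤ → ℕ → ℝ} (hw : ∀ z i, 0 ≤ w z i ∧ w z i ≤ 1) {r : ℝ} (hr : 0 < r) {N : ℕ}
    (hN : 1 ≤ N) : 1 - Pq w N {z : ℤ | |(z : ℝ)| ≤ r * Real.sqrt N} ≤
      (1 / (r ^ 2 * N)) * Ex (fun h => w (pos h) (vis h)) (fun x => X x ^ 2) N [] := by
  classical
  have hN' : (0 : ℝ) < N := by exact_mod_cast hN
  rw [Pq_eq]
  have h1 := Ex_add (fun h => w (pos h) (vis h))
    (fun h => if pos h ∈ {z : ℤ | |(z : ℝ)| ≤ r * Real.sqrt N} then 1 else 0)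
    (fun h => if pos h ∈ {z : ℤ | |(z : ℝ)| ≤ r * Real.sqrt N} then 0 else 1) N []
  have h2 : (fun x : List Bool =>
      (if pos x ∈ {z : ℤ | |(z : ℝ)| ≤ r * Real.sqrt N} then (1 : ℝ) else 0) +
      (if pos x ∈ {z : ℤ | |(z : ℝ)| ≤ r * Real.sqrt N} then (0 : ℝ) else 1)) = fun _ => 1 := by
    funext x
    split_ifs <;> simp
  rw [h2, Ex_const] at h1
  have h3 : Ex (fun h => w (pos h) (vis h))
      (fun h => if pos h ∈ {z : ℤ | |(z : ℝ)| ≤ r * Real.sqrt N} then (0 : ℝ) else 1) N [] ≤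
      Ex (fun h => w (pos h) (vis h)) (fun x => (1 / (r ^ 2 * N)) * X x ^ 2) N [] := by
    refine Ex_mono (fun h => hw _ _) N [] ?_
    intro x _
    have h4 : 0 ≤ (1 / (r ^ 2 * N)) * X x ^ 2 := by positivity
    split_ifs with h5
    · exact h4
    · have h6 : r * Real.sqrt N < |X x| := not_le.1 h5
      have h7 : r ^ 2 * N ≤ X x ^ 2 := by
        calc r ^ 2 * N = (r * Real.sqrt N) ^ 2 := by rw [mul_pow, Real.sq_sqrt hN'.le]
          _ ≤ |X x| ^ 2 := pow_le_pow_left₀ (by positivity) h6.le 2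
          _ = X x ^ 2 := sq_abs _
      rw [one_div, inv_mul_eq_div, le_div_iff₀ (by positivity), one_mul]
      exact h7
  rw [Ex_mul] at h3
  linarith

/-- **Main estimate.** -/
theorem Env.null (hE : Env P W s2) {r ε : ℝ} (hr : 0 < r) (hε : 0 < ε) (N₀ : ℕ) :
    P {o | ∀ N, N₀ ≤ N → Pq (envW W o) N {z : ℤ | |(z : ℝ)| ≤ r * Real.sqrt N} ≤ 1 - ε} = 0 := by
  classical
  haveI := hE.pr
  set A : Set Ω := {o | ∀ N, N₀ ≤ N → Pq (envW W o) N {z : ℤ | |(z : ℝ)| ≤ r * Real.sqrt N} ≤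
    1 - ε} with hA
  have hAm' : MeasurableSet[⨆ κ, MeasurableSpace.comap (W κ) inferInstance] A :=
    A_measurable (fun κ => measurable_iff_comap_le.2
      (le_iSup (fun κ => MeasurableSpace.comap (W κ) inferInstance) κ)) r ε N₀
  have hAm : MeasurableSet A := A_measurable hE.meas r ε N₀
  -- it is enough to bound `ε P(A)`
  suffices h : ∀ η : ℝ, 0 < η → ε * P.real A ≤ η / r ^ 2 by
    have h1 : P.real A ≤ 0 := by
      by_contra hcon
      rw [not_le] at hcon
      have h2 := h (ε * P.real A * r ^ 2 / 2) (by positivity)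
      have h3 : ε * P.real A * r ^ 2 / 2 / r ^ 2 = ε * P.real A / 2 := by field_simp
      rw [h3] at h2
      have : 0 < ε * P.real A := by positivity
      linarith
    have h2 : P.real A = 0 := le_antisymm h1 measureReal_nonneg
    exact (measureReal_eq_zero_iff (measure_ne_top _ _)).1 h2
  intro η hη
  -- the constants
  set θ : ℝ := 1 / η with hθdef
  set a : ℝ := 5 * θ with hadef
  set c : ℝ := 8 * θ * a ^ 2 * (3 + θ * a) / η with hcdef
  have hθ : 0 < θ := by positivity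
  have ha : 0 < a := by positivity
  have hc : 0 < c := by positivity
  have hK : 1 / (2 * θ) + 6 * θ / a ^ 2 + 2 * θ * a ^ 2 * (3 + θ * a) / c ≤ η := by
    have e1 : 1 / (2 * θ) = η / 2 := by rw [hθdef]; field_simp
    have e2 : 6 * θ / a ^ 2 = 6 / 25 * η := by rw [hadef, hθdef]; field_simp; ring
    have e3 : 2 * θ * a ^ 2 * (3 + θ * a) / c = η / 4 := by
      rw [hcdef]
      have h3 : 0 < 3 + θ * a := by positivity
      field_simp
      ring
    rw [e1, e2, e3]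
    linarith
  have hweak := hE.weak (c := c) hθ.le ha.le hc.le hAm'
  have hweak2 := hweak.const_mul ε
  refine le_of_tendsto hweak2 ?_
  -- large N
  have ev1 : ∀ᶠ N : ℕ in atTop, θ * a / Real.sqrt N < min 1 s2 := by
    have h1 : Tendsto (fun N : ℕ => θ * a / Real.sqrt N) atTop (𝓝 0) :=
      tendsto_const_nhds.div_atTop (Real.tendsto_sqrt_atTop.comp tendsto_natCast_atTop_atTop)
    exact (tendsto_order.1 h1).2 _ (lt_min one_pos hE.spos)
  have ev2 : ∀ᶠ N : ℕ in atTop, 2 * θ ≤ N := tendsto_natCast_atTop_atTop.eventually_ge_atTop _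
  filter_upwards [ev1, ev2, eventually_ge_atTop (max N₀ 1)] with N h1 h2 h3
  have hN1 : 1 ≤ N := (le_max_right _ _).trans h3
  have hN0 : N₀ ≤ N := (le_max_left _ _).trans h3
  have hN' : (0 : ℝ) < N := by exact_mod_cast hN1
  have hs : 0 < Real.sqrt N := Real.sqrt_pos.2 hN'
  have h1a : θ * a ≤ Real.sqrt N := ((div_lt_one hs).1 (h1.trans_le (min_le_left _ _))).le
  have h1b : θ * a / Real.sqrt N ≤ s2 := (h1.trans_le (min_le_right _ _)).le
  have hLnn := hE.Lam_nonneg (c := c) hθ.le ha.le hN1 h1b (SS N)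
  have hLi := hE.Lam_int θ a c N (SS N)
  obtain ⟨hti, hte⟩ := hE.tilt θ a c N (fun x => X x ^ 2)
  have hwb := walk_bound hθ ha hc hN1 h2 h1a
  rw [← integral_const_mul, ← integral_indicator hAm]
  have hpt : ∀ o, A.indicator (fun o => ε * Lam W s2 θ a c N (SS N) o) o ≤
      (1 / (r ^ 2 * N)) * (Lam W s2 θ a c N (SS N) o *
        Ex (fun x => W (pos x, vis x) o) (fun x => X x ^ 2) N []) := by
    intro o
    have hcheb := cheb (w := envW W o) (fun z i => hE.mem (z, i) o) hr hN1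
    have hEx0 : 0 ≤ Ex (fun x => W (pos x, vis x) o) (fun x => X x ^ 2) N [] := by
      have h4 := Ex_mono (β := fun x => W (pos x, vis x) o) (fun x => hE.mem _ o)
        (Φ := fun _ => 0) (Ψ := fun x => X x ^ 2) N [] (fun x _ => sq_nonneg _)
      rwa [Ex_const] at h4
    by_cases ho : o ∈ A
    · rw [Set.indicator_of_mem ho]
      have h5 := ho N hN0
      have h6 : ε ≤ (1 / (r ^ 2 * N)) *
          Ex (fun x => W (pos x, vis x) o) (fun x => X x ^ 2) N [] := by
        have h7 : Ex (fun h => envW W o (pos h) (vis h)) (fun x => X x ^ 2) N [] =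
          Ex (fun x => W (pos x, vis x) o) (fun x => X x ^ 2) N [] := rfl
        rw [h7] at hcheb
        linarith
      calc ε * Lam W s2 θ a c N (SS N) o
          ≤ ((1 / (r ^ 2 * N)) * Ex (fun x => W (pos x, vis x) o) (fun x => X x ^ 2) N []) *
              Lam W s2 θ a c N (SS N) o := mul_le_mul_of_nonneg_right h6 (hLnn o)
        _ = _ := by ring
    · rw [Set.indicator_of_notMem ho]
      exact mul_nonneg (by positivity) (mul_nonneg (hLnn o) hEx0)
  refine (integral_mono ((hLi.const_mul ε).indicator hAm) (hti.const_mul _) hpt).trans ?_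
  rw [integral_const_mul, hte]
  calc (1 / (r ^ 2 * N)) * Ex (bet fun h => del θ a c N (pos h) (vis h)) (fun x => X x ^ 2) N []
      ≤ (1 / (r ^ 2 * N)) * (η * N) := by
        refine mul_le_mul_of_nonneg_left (hwb.trans ?_) (by positivity)
        exact mul_le_mul_of_nonneg_right hK hN'.le
    _ = η / r ^ 2 := by field_simp

/-- **Concentration along a subsequence, and no central limit theorem.** -/
theorem Env.main (hE : Env P W s2) :
    ∀ᵐ o ∂P, (∀ r : ℝ, 0 < r → ∀ ε : ℝ, 0 < ε →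
      ∃ᶠ n : ℕ in atTop, 1 - ε < Pq (envW W o) n {z : ℤ | |(z : ℝ)| ≤ r * Real.sqrt n}) ∧
    ¬ ∃ (c : ℕ → ℝ) (v : NNReal), v ≠ 0 ∧ ∀ x : ℝ,
      Tendsto (fun n : ℕ => Pq (envW W o) n {z : ℤ | (z : ℝ) ≤ c n + x * Real.sqrt n}) atTop
        (𝓝 (gaussianReal 0 v (Set.Iic x)).toReal) := by
  have h1 : ∀ᵐ o ∂P, ∀ j : ℕ, ∀ N₀ : ℕ, ¬ ∀ N, N₀ ≤ N →
      Pq (envW W o) N {z : ℤ | |(z : ℝ)| ≤ (1 / ((j : ℝ) + 1)) * Real.sqrt N} ≤
        1 - 1 / ((j : ℝ) + 1) := by
    rw [ae_all_iff]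
    intro j
    rw [ae_all_iff]
    intro N₀
    have := hE.null (r := 1 / ((j : ℝ) + 1)) (ε := 1 / ((j : ℝ) + 1)) (by positivity)
      (by positivity) N₀
    exact measure_eq_zero_iff_ae_notMem.1 this
  filter_upwards [h1] with o ho
  have hw : ∀ z i, 0 ≤ envW W o z i ∧ envW W o z i ≤ 1 := fun z i => hE.mem (z, i) o
  have h2 : ∀ r : ℝ, 0 < r → ∀ ε : ℝ, 0 < ε →
      ∃ᶠ n : ℕ in atTop, 1 - ε < Pq (envW W o) n {z : ℤ | |(z : ℝ)| ≤ r * Real.sqrt n} := by
    intro r hr ε hε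
    rw [frequently_atTop]
    intro N₀
    obtain ⟨j, hj⟩ := exists_nat_one_div_lt (lt_min hr hε)
    have h3 := ho j N₀
    push Not at h3
    obtain ⟨N, hN, hlt⟩ := h3
    refine ⟨N, hN, ?_⟩
    have h4 : 1 / ((j : ℝ) + 1) ≤ r := (hj.trans_le (min_le_left _ _)).le
    have h5 : 1 / ((j : ℝ) + 1) ≤ ε := (hj.trans_le (min_le_right _ _)).le
    refine lt_of_lt_of_le (lt_of_le_of_lt (by linarith) hlt) (Pq_mono hw N ?_)
    intro z hz
    have hz' : |(z : ℝ)| ≤ (1 / ((j : ℝ) + 1)) * Real.sqrt N := hz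
    show |(z : ℝ)| ≤ r * Real.sqrt N
    exact hz'.trans (mul_le_mul_of_nonneg_right h4 (Real.sqrt_nonneg _))
  refine ⟨h2, ?_⟩
  rintro ⟨c, v, hv, hclt⟩
  obtain ⟨r, hr, ε, hε, hev⟩ := clt_window hw c v hv hclt
  obtain ⟨n, h3, h4⟩ := ((h2 r hr ε hε).and_eventually hev).exists
  linarith

end

end Pool.Agent.MP0d3db7
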