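import Pool.Agent.Lib.MP_0d3db7.Walk

/-!
# MP_0d3db7_pr: expectation over the environment with a product density
-/

set_option autoImplicit false

namespace Pool.Agent.MP0d3db7

open MeasureTheory ProbabilityTheory Filter Topology

/-- bounded measurable on `[0, 1]` -/
def Bd (G : ℝ → ℝ) : Prop := Measurable G ∧ ∃ C, ∀ x, 0 ≤ x → x ≤ 1 → |G x| ≤ C

theorem Bd.mul {G H : ℝ → ℝ} (hG : Bd G) (hH : Bd H) : Bd fun x => G x * H x := by
  obtain ⟨hm, C, hC⟩ := hG
  obtain ⟨hm', C', hC'⟩ := hH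
  refine ⟨hm.mul hm', C * C', fun x h0 h1 => ?_⟩
  rw [abs_mul]
  exact mul_le_mul (hC x h0 h1) (hC' x h0 h1) (abs_nonneg _) ((abs_nonneg _).trans (hC x h0 h1))

theorem bd_id : Bd fun x => x :=
  ⟨measurable_id, 1, fun x h0 h1 => by rw [abs_of_nonneg h0]; exact h1⟩

theorem bd_one_sub : Bd fun x => 1 - x :=
  ⟨measurable_const.sub measurable_id, 1, fun x h0 h1 => by
    rw [abs_of_nonneg (by linarith)]; linarith⟩

section

variable {Ω : Type} [MeasurableSpace Ω] {P : Measure Ω} [IsProbabilityMeasure P]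
  {W : ℤ × ℕ → Ω → ℝ}

theorem prod_integrable (hm : ∀ κ, Measurable (W κ)) (h01 : ∀ κ o, 0 ≤ W κ o ∧ W κ o ≤ 1)
    (S : Finset (ℤ × ℕ)) (G : ℤ × ℕ → ℝ → ℝ) (hG : ∀ κ, Bd (G κ)) :
    Integrable (fun o => ∏ κ ∈ S, G κ (W κ o)) P := by
  choose hGm C hC using hG
  refine Integrable.of_bound (C := ∏ κ ∈ S, C κ) ?_ (Eventually.of_forall fun o => ?_)
  · exact (Finset.measurable_fun_prod S fun κ _ => (hGm κ).comp (hm κ)).aestronglyMeasurable
  · rw [Real.norm_eq_abs, Finset.abs_prod]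
    exact Finset.prod_le_prod (fun _ _ => abs_nonneg _)
      (fun κ _ => hC κ _ (h01 κ o).1 (h01 κ o).2)

theorem int_prod (hI : iIndepFun W P) (hm : ∀ κ, Measurable (W κ)) (S : Finset (ℤ × ℕ))
    (G : ℤ × ℕ → ℝ → ℝ) (hG : ∀ κ, Measurable (G κ)) :
    ∫ o, ∏ κ ∈ S, G κ (W κ o) ∂P = ∏ κ ∈ S, ∫ o, G κ (W κ o) ∂P := by
  have h := iIndepFun.integral_fun_prod_comp (X := fun i : S => W (i : ℤ × ℕ)) (μ := P)
    (f := fun i : S => G (i : ℤ × ℕ))
    (hI.precomp (g := fun i : S => (i : ℤ × ℕ)) Subtype.val_injective)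
    (fun i => (hm i).aemeasurable) (fun i => (hG i).aestronglyMeasurable)
  rw [Finset.prod_coe_sort S (fun κ => ∫ o, G κ (W κ o) ∂P)] at h
  rw [← h]
  congr 1
  funext o
  exact (Finset.prod_coe_sort S (fun κ => G κ (W κ o))).symm

theorem abs_pos_le (h : List Bool) : |pos h| ≤ h.length := by
  induction h with
  | nil => simp [pos]
  | cons b h ih =>
    show |pos h + stp b| ≤ _
    have h1 : |stp b| ≤ 1 := by cases b <;> simp [stp]
    have := abs_add_le (pos h) (stp b)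
    rw [List.length_cons]
    push_cast
    linarith

theorem pv_le (z : ℤ) (h : List Bool) : pv z h ≤ h.length := by
  induction h with
  | nil => exact le_refl 0
  | cons b h ih =>
    show pv z h + (if pos h = z then 1 else 0) ≤ _
    rw [List.length_cons]
    split_ifs <;> omega

/-- **Each cookie is used once.** -/
theorem tilt_gen (hI : iIndepFun W P) (hm : ∀ κ, Measurable (W κ))
    (h01 : ∀ κ o, 0 ≤ W κ o ∧ W κ o ≤ 1) (g : ℤ × ℕ → ℝ → ℝ) (β' : ℤ → ℕ → ℝ)
    (hg1 : ∀ κ, ∫ o, g κ (W κ o) ∂P = 1)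
    (hg2 : ∀ κ, ∫ o, g κ (W κ o) * W κ o ∂P = β' κ.1 κ.2) (S : Finset (ℤ × ℕ)) (T : ℕ)
    (hgB : ∀ κ, Bd (g κ))
    (hS : ∀ (z : ℤ) (i : ℕ), |z| ≤ T → i ≤ T + 1 → (z, i) ∈ S) (Φ : List Bool → ℝ) :
    ∀ (n : ℕ) (h : List Bool), h.length + n ≤ T → ∀ G : ℤ × ℕ → ℝ → ℝ, (∀ κ, Bd (G κ)) →
      (∀ z i, pv z h < i → G (z, i) = g (z, i)) →
      Integrable (fun o => (∏ κ ∈ S, G κ (W κ o)) *
        Ex (fun x => W (pos x, vis x) o) Φ n h) P ∧
      ∫ o, (∏ κ ∈ S, G κ (W κ o)) * Ex (fun x => W (pos x, vis x) o) Φ n h ∂P =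
        (∏ κ ∈ S, ∫ o, G κ (W κ o) ∂P) * Ex (fun x => β' (pos x) (vis x)) Φ n h := by
  intro n
  induction n with
  | zero =>
    intro h _ G hG _
    refine ⟨(prod_integrable hm h01 S G hG).mul_const _, ?_⟩
    show ∫ o, (∏ κ ∈ S, G κ (W κ o)) * Φ h ∂P = _ * Φ h
    rw [integral_mul_const, int_prod hI hm S G (fun κ => (hG κ).1)]
  | succ n ih =>
    intro h hT G hG hGg
    classical
    set κ₀ : ℤ × ℕ := (pos h, vis h) with hκ₀
    have hκS : κ₀ ∈ S := by
      apply hS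
      · have h1 := abs_pos_le h
        have h2 : (h.length : ℤ) ≤ T := by exact_mod_cast (by omega : h.length ≤ T)
        exact h1.trans h2
      · have h1 := pv_le (pos h) h
        show pv (pos h) h + 1 ≤ T + 1
        omega
    have hG0 : G κ₀ = g κ₀ := hGg (pos h) (vis h) (Nat.lt_succ_self _)
    -- modification at `κ₀`
    have key : ∀ (b : Bool) (m : ℝ → ℝ), Bd m → Integrable (fun o => (∏ κ ∈ S, G κ (W κ o)) *
        m (W κ₀ o) * Ex (fun x => W (pos x, vis x) o) Φ n (b :: h)) P ∧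
        ∫ o, (∏ κ ∈ S, G κ (W κ o)) * m (W κ₀ o) *
          Ex (fun x => W (pos x, vis x) o) Φ n (b :: h) ∂P =
        (∏ κ ∈ S, ∫ o, G κ (W κ o) ∂P) * (∫ o, g κ₀ (W κ₀ o) * m (W κ₀ o) ∂P) *
          Ex (fun x => β' (pos x) (vis x)) Φ n (b :: h) := by
      intro b m hmB
      set G' : ℤ × ℕ → ℝ → ℝ := Function.update G κ₀ (fun x => G κ₀ x * m x) with hG'
      have hG'1 : ∀ κ, κ ≠ κ₀ → G' κ = G κ := fun κ hκ => Function.update_of_ne hκ _ _
      have hG'0 : G' κ₀ = fun x => G κ₀ x * m x := Function.update_self _ _ _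
      have hG'B : ∀ κ, Bd (G' κ) := by
        intro κ
        by_cases hκ : κ = κ₀
        · rw [hκ, hG'0]; exact (hG κ₀).mul hmB
        · rw [hG'1 κ hκ]; exact hG κ
      have hG'g : ∀ z i, pv z (b :: h) < i → G' (z, i) = g (z, i) := by
        intro z i hi
        have h1 : pv z (b :: h) = pv z h + if pos h = z then 1 else 0 := rfl
        have h2 : (z, i) ≠ κ₀ := by
          intro h3
          have h4 : z = pos h := congrArg Prod.fst h3
          have h5 : i = vis h := congrArg Prod.snd h3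
          rw [h1, h4, if_pos rfl, h5] at hi
          exact lt_irrefl _ hi
        rw [hG'1 _ h2]
        apply hGg
        omega
      obtain ⟨hint, heq⟩ := ih (b :: h) (by rw [List.length_cons]; omega) G' hG'B hG'g
      have hprod : ∀ o, ∏ κ ∈ S, G' κ (W κ o) = (∏ κ ∈ S, G κ (W κ o)) * m (W κ₀ o) := by
        intro o
        rw [← Finset.mul_prod_erase S _ hκS, ← Finset.mul_prod_erase S (fun κ => G κ (W κ o)) hκS,
          hG'0]
        have h1 : ∏ κ ∈ S.erase κ₀, G' κ (W κ o) = ∏ κ ∈ S.erase κ₀, G κ (W κ o) :=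
          Finset.prod_congr rfl fun κ hκ => by rw [hG'1 κ (Finset.ne_of_mem_erase hκ)]
        rw [h1]
        ring
      have hprod2 : ∏ κ ∈ S, ∫ o, G' κ (W κ o) ∂P =
          (∏ κ ∈ S, ∫ o, G κ (W κ o) ∂P) * ∫ o, g κ₀ (W κ₀ o) * m (W κ₀ o) ∂P := by
        rw [← Finset.mul_prod_erase S _ hκS,
          ← Finset.mul_prod_erase S (fun κ => ∫ o, G κ (W κ o) ∂P) hκS, hG'0, hG0, hg1]
        have h1 : ∏ κ ∈ S.erase κ₀, ∫ o, G' κ (W κ o) ∂P =
            ∏ κ ∈ S.erase κ₀, ∫ o, G κ (W κ o) ∂P :=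
          Finset.prod_congr rfl fun κ hκ => by rw [hG'1 κ (Finset.ne_of_mem_erase hκ)]
        rw [h1]
        ring
      constructor
      · refine hint.congr (Eventually.of_forall fun o => ?_)
        show (∏ κ ∈ S, G' κ (W κ o)) * _ = _
        rw [hprod]
      · rw [← hprod2, ← heq]
        congr 1
        funext o
        rw [hprod]
    obtain ⟨i1, e1⟩ := key true (fun x => x) bd_id
    obtain ⟨i2, e2⟩ := key false (fun x => 1 - x) bd_one_sub
    have hsplit : ∀ o, (∏ κ ∈ S, G κ (W κ o)) * Ex (fun x => W (pos x, vis x) o) Φ (n + 1) h =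
        (∏ κ ∈ S, G κ (W κ o)) * W κ₀ o * Ex (fun x => W (pos x, vis x) o) Φ n (true :: h) +
        (∏ κ ∈ S, G κ (W κ o)) * (1 - W κ₀ o) *
          Ex (fun x => W (pos x, vis x) o) Φ n (false :: h) := by
      intro o
      show (∏ κ ∈ S, G κ (W κ o)) * (W κ₀ o * Ex (fun x => W (pos x, vis x) o) Φ n (true :: h) +
        (1 - W κ₀ o) * Ex (fun x => W (pos x, vis x) o) Φ n (false :: h)) = _
      ring
    simp_rw [hsplit]
    refine ⟨i1.add i2, ?_⟩
    rw [integral_add i1 i2, e1, e2]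
    have hW : Integrable (fun o => g κ₀ (W κ₀ o) * W κ₀ o) P := by
      have := prod_integrable (P := P) hm h01 {κ₀} (fun κ => fun x => g κ x * x)
        (fun κ => (hgB κ).mul bd_id)
      simpa using this
    have hW1 : Integrable (fun o => g κ₀ (W κ₀ o)) P := by
      have := prod_integrable (P := P) hm h01 {κ₀} g hgB
      simpa using this
    have h3 : ∫ o, g κ₀ (W κ₀ o) * (1 - W κ₀ o) ∂P = 1 - β' (pos h) (vis h) := by
      have h4 : ∀ o, g κ₀ (W κ₀ o) * (1 - W κ₀ o) = g κ₀ (W κ₀ o) - g κ₀ (W κ₀ o) * W κ₀ o :=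
        fun o => by ring
      simp_rw [h4]
      rw [integral_sub hW1 hW, hg1, hg2]
    rw [hg2, h3]
    show _ = _ * (β' (pos h) (vis h) * Ex (fun x => β' (pos x) (vis x)) Φ n (true :: h) +
      (1 - β' (pos h) (vis h)) * Ex (fun x => β' (pos x) (vis x)) Φ n (false :: h))
    ring

end

end Pool.Agent.MP0d3db7
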