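import Pool.Agent.Lib.MP_0d3db7.Defs

/-!
# MP_0d3db7_pr: second moment of the walk with drift towards the origin
-/

set_option autoImplicit false

namespace Pool.Agent.MP0d3db7

/-- the position as a real number -/
def X (h : List Bool) : ℝ := (pos h : ℝ)

theorem X_nil : X [] = 0 := by simp [X, pos]

theorem X_true (h : List Bool) : X (true :: h) = X h + 1 := by
  simp [X, pos, stp]

theorem X_false (h : List Bool) : X (false :: h) = X h - 1 := by
  simp [X, pos, stp]; ring

/-- sums over the earlier times (the present time included) -/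
def HH : List Bool → ℝ
  | [] => 0
  | b :: h => |X (b :: h)| + HH h

def DD (z : ℝ) : List Bool → ℝ
  | [] => |z|
  | b :: h => |z - X (b :: h)| + DD z h

theorem HH_nonneg (h : List Bool) : 0 ≤ HH h := by
  induction h with
  | nil => exact le_refl 0
  | cons b h ih => exact add_nonneg (abs_nonneg _) ih

theorem DD_le (z : ℝ) (h : List Bool) : DD z h ≤ (h.length + 1) * |z| + HH h := by
  induction h with
  | nil => simp [DD, HH]
  | cons b h ih =>
    show |z - X (b :: h)| + DD z h ≤ _ * |z| + (|X (b :: h)| + HH h)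
    have h1 : |z - X (b :: h)| ≤ |z| + |X (b :: h)| := abs_sub _ _
    rw [List.length_cons]
    push_cast
    linarith

/-- one step of the distance -/
theorem abs_step (x y : ℤ) {β : ℝ} (h0 : 0 ≤ β) (h1 : β ≤ 1) :
    |(x : ℝ) - y| + (if x = y then 1 else 0) - |2 * β - 1| ≤
      β * |(x : ℝ) + 1 - y| + (1 - β) * |(x : ℝ) - 1 - y| := by
  rcases lt_trichotomy x y with h | h | h
  · have h2 : (x : ℝ) + 1 ≤ y := by exact_mod_cast h
    have e1 : |(x : ℝ) - y| = y - x := by rw [abs_of_nonpos (by linarith)]; ring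
    have e2 : |(x : ℝ) + 1 - y| = y - x - 1 := by rw [abs_of_nonpos (by linarith)]; ring
    have e3 : |(x : ℝ) - 1 - y| = y - x + 1 := by rw [abs_of_nonpos (by linarith)]; ring
    rw [if_neg h.ne, e1, e2, e3]
    have := le_abs_self (2 * β - 1)
    nlinarith
  · subst h
    rw [if_pos rfl]
    have e1 : (x : ℝ) + 1 - x = 1 := by ring
    have e2 : (x : ℝ) - 1 - x = -1 := by ring
    rw [e1, e2, sub_self, abs_zero, abs_one, abs_neg, abs_one]
    have := abs_nonneg (2 * β - 1)
    linarith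
  · have h2 : (y : ℝ) + 1 ≤ x := by exact_mod_cast h
    have e1 : |(x : ℝ) - y| = x - y := abs_of_nonneg (by linarith)
    have e2 : |(x : ℝ) + 1 - y| = x + 1 - y := abs_of_nonneg (by linarith)
    have e3 : |(x : ℝ) - 1 - y| = x - 1 - y := abs_of_nonneg (by linarith)
    rw [if_neg h.ne', e1, e2, e3]
    have := neg_abs_le (2 * β - 1)
    nlinarith

theorem aux1 {s N : ℝ} (hs : 0 < s) (h : s * s = N) : (1 / (2 * s)) * N = s / 2 := by
  subst h; field_simp

theorem aux2 {s N a c : ℝ} (hc : 0 < c) (h : s * s = N) :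
    a ^ 2 * N = (a ^ 2 * s / c) * (c * s) := by
  subst h; field_simp

theorem DD_step (x : ℤ) {β : ℝ} (h0 : 0 ≤ β) (h1 : β ≤ 1) (h : List Bool) :
    DD x h + (pv x (true :: h) : ℝ) - |2 * β - 1| * (h.length + 1) ≤
      β * DD ((x : ℝ) + 1) h + (1 - β) * DD ((x : ℝ) - 1) h := by
  induction h with
  | nil =>
    have h2 := abs_step x 0 h0 h1
    simp only [Int.cast_zero, sub_zero] at h2
    simp only [DD, List.length_nil, Nat.cast_zero, zero_add, mul_one]
    have h3 : ((pv x [true] : ℕ) : ℝ) = if x = 0 then 1 else 0 := by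
      show ((0 + if pos [] = x then 1 else 0 : ℕ) : ℝ) = _
      rw [show pos [] = 0 from rfl]
      by_cases hx : x = 0
      · subst hx; simp
      · rw [if_neg hx, if_neg (Ne.symm hx)]; simp
    rw [h3]
    linarith
  | cons b h ih =>
    have h2 := abs_step x (pos (b :: h)) h0 h1
    have h3 : ((pv x (true :: b :: h) : ℕ) : ℝ) =
        (pv x (true :: h) : ℝ) + if x = pos (b :: h) then 1 else 0 := by
      show ((pv x (b :: h) + if pos (b :: h) = x then 1 else 0 : ℕ) : ℝ) = _
      have h4 : pv x (b :: h) = pv x (true :: h) := rfl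
      rw [h4]
      by_cases hx : x = pos (b :: h)
      · rw [if_pos hx, if_pos hx.symm]; push_cast; ring
      · rw [if_neg hx, if_neg (Ne.symm hx)]; push_cast; ring
    show |(x : ℝ) - X (b :: h)| + DD x h + _ - |2 * β - 1| * (((b :: h).length : ℝ) + 1) ≤
      β * (|(x : ℝ) + 1 - X (b :: h)| + DD ((x : ℝ) + 1) h) +
      (1 - β) * (|(x : ℝ) - 1 - X (b :: h)| + DD ((x : ℝ) - 1) h)
    rw [h3, List.length_cons]
    push_cast
    have h5 : X (b :: h) = ((pos (b :: h) : ℤ) : ℝ) := rfl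
    rw [h5]
    linarith

section

variable {b : List Bool → ℝ}

/-- the transition probability with drift `b` -/
noncomputable def bet (b : List Bool → ℝ) (h : List Bool) : ℝ := (1 + b h) / 2

theorem bet_mem (hb : ∀ h, |b h| ≤ 1) (h : List Bool) : 0 ≤ bet b h ∧ bet b h ≤ 1 := by
  have h1 := abs_le.1 (hb h)
  unfold bet
  constructor <;> linarith [h1.1, h1.2]

theorem two_bet (h : List Bool) : 2 * bet b h - 1 = b h := by
  unfold bet; ring

theorem Ex1_P2 (h : List Bool) :
    Ex1 (bet b) (fun x => X x ^ 2) h = X h ^ 2 + 1 + 2 * X h * b h := by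
  unfold Ex1 bet
  simp only [X_true, X_false]
  ring

theorem Ex1_P4 (h : List Bool) :
    Ex1 (bet b) (fun x => X x ^ 4) h =
      X h ^ 4 + 6 * X h ^ 2 + 1 + (4 * X h ^ 2 + 4) * (X h * b h) := by
  unfold Ex1 bet
  simp only [X_true, X_false]
  ring

theorem EP2 (hb : ∀ h, |b h| ≤ 1) (hin : ∀ h, X h * b h ≤ 0) (n : ℕ) :
    Ex (bet b) (fun x => X x ^ 2) n [] ≤ n := by
  induction n with
  | zero => simp [Ex, X_nil]
  | succ n ih =>
    rw [Ex_succ']
    refine (Ex_mono (bet_mem hb) (Ψ := fun x => X x ^ 2 + 1) n [] ?_).trans ?_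
    · intro x _
      rw [Ex1_P2]
      have := hin x
      linarith
    · rw [Ex_add, Ex_const]
      push_cast
      linarith

theorem EP4 (hb : ∀ h, |b h| ≤ 1) (hin : ∀ h, X h * b h ≤ 0) (n : ℕ) :
    Ex (bet b) (fun x => X x ^ 4) n [] ≤ 3 * (n : ℝ) ^ 2 := by
  induction n with
  | zero => simp [Ex, X_nil]
  | succ n ih =>
    rw [Ex_succ']
    refine (Ex_mono (bet_mem hb) (Ψ := fun x => (X x ^ 4 + 6 * X x ^ 2) + 1) n [] ?_).trans ?_
    · intro x _
      rw [Ex1_P4]
      have h1 := hin x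
      have h2 : 0 ≤ 4 * X x ^ 2 + 4 := by positivity
      have := mul_nonneg h2 (by linarith : 0 ≤ -(X x * b x))
      linarith
    · rw [Ex_add, Ex_add, Ex_const, Ex_mul]
      have := EP2 hb hin n
      push_cast
      nlinarith

theorem Eabs (hb : ∀ h, |b h| ≤ 1) (hin : ∀ h, X h * b h ≤ 0) {n N : ℕ} (hn : n ≤ N)
    (hN : 1 ≤ N) : Ex (bet b) (fun x => |X x|) n [] ≤ Real.sqrt N := by
  have hN' : (0 : ℝ) < N := by exact_mod_cast hN
  have hs : 0 < Real.sqrt N := Real.sqrt_pos.2 hN'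
  have hs2 : Real.sqrt N * Real.sqrt N = N := Real.mul_self_sqrt hN'.le
  refine (Ex_mono (bet_mem hb)
    (Ψ := fun x => (1 / (2 * Real.sqrt N)) * X x ^ 2 + Real.sqrt N / 2) n [] ?_).trans ?_
  · intro x _
    have h1 : 0 ≤ (|X x| - Real.sqrt N) ^ 2 := sq_nonneg _
    have h2 : |X x| ^ 2 = X x ^ 2 := sq_abs _
    have h3 : |X x| * (2 * Real.sqrt N) ≤ X x ^ 2 + Real.sqrt N * Real.sqrt N := by nlinarith
    have h4 : (1 / (2 * Real.sqrt N)) * X x ^ 2 + Real.sqrt N / 2 =
        (X x ^ 2 + Real.sqrt N * Real.sqrt N) / (2 * Real.sqrt N) := by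
      field_simp
    rw [h4, le_div_iff₀ (by positivity)]
    exact h3
  · rw [Ex_add, Ex_const, Ex_mul]
    have h1 := EP2 hb hin n
    have h2 : (n : ℝ) ≤ N := by exact_mod_cast hn
    have h3 : (1 / (2 * Real.sqrt N)) * Ex (bet b) (fun x => X x ^ 2) n [] ≤
        (1 / (2 * Real.sqrt N)) * N := mul_le_mul_of_nonneg_left (h1.trans h2) (by positivity)
    have h4 : (1 / (2 * Real.sqrt N)) * N = Real.sqrt N / 2 := aux1 hs hs2
    linarith

theorem EHH (hb : ∀ h, |b h| ≤ 1) (hin : ∀ h, X h * b h ≤ 0) {N : ℕ} (hN : 1 ≤ N) (n : ℕ)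
    (hn : n ≤ N) : Ex (bet b) HH n [] ≤ n * Real.sqrt N := by
  induction n with
  | zero => simp [Ex, HH]
  | succ n ih =>
    have h1 := ih (by omega)
    have h2 : Ex (bet b) HH (n + 1) [] =
        Ex (bet b) (fun x => |X x|) (n + 1) [] + Ex (bet b) HH n [] := by
      have h3 : Ex (bet b) HH n [] = Ex (bet b) (fun x => HH x.tail) (n + 1) [] := by
        rw [Ex_succ']
        congr 1
        funext h
        unfold Ex1
        simp only [List.tail_cons]
        ring
      rw [h3, ← Ex_add, Ex_succ', Ex_succ']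
      congr 1
    rw [h2]
    have h4 := Eabs hb hin hn hN
    push_cast
    linarith

/-- the expected numbers of visits -/
theorem Evis (hb : ∀ h, |b h| ≤ 1) (hin : ∀ h, X h * b h ≤ 0) {bm : ℝ} (hbm : ∀ h, |b h| ≤ bm)
    {N : ℕ} (hN : 1 ≤ N) :
    ∑ k ∈ Finset.range N, Ex (bet b) (fun x => (vis x : ℝ)) k [] ≤
      3 * N * Real.sqrt N + bm * (N : ℝ) ^ 2 := by
  have hbm0 : 0 ≤ bm := (abs_nonneg _).trans (hbm [])
  -- one step
  have h1 : ∀ k, Ex (bet b) (fun x => DD (X x) x) k [] + Ex (bet b) (fun x => (vis x : ℝ)) k [] -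
      bm * (k + 1) ≤ Ex (bet b) (fun x => DD (X x) x) (k + 1) [] := by
    intro k
    rw [Ex_succ']
    have h2 : Ex (bet b) (fun x => (DD (X x) x + (vis x : ℝ)) + -(bm * (k + 1))) k [] ≤
        Ex (bet b) (Ex1 (bet b) fun x => DD (X x) x) k [] := by
      refine Ex_mono (bet_mem hb) k [] ?_
      intro x hx
      have h3 := DD_step (pos x) (bet_mem hb x).1 (bet_mem hb x).2 x
      rw [two_bet] at h3
      have h4 : (pv (pos x) (true :: x) : ℝ) = (vis x : ℝ) := by
        show ((pv (pos x) x + if pos x = pos x then 1 else 0 : ℕ) : ℝ) = _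
        rw [if_pos rfl]
        rfl
      rw [h4] at h3
      have h5 : (x.length : ℝ) = k := by
        rw [hx]; simp
      rw [h5] at h3
      have h6 : |b x| * ((k : ℝ) + 1) ≤ bm * (k + 1) :=
        mul_le_mul_of_nonneg_right (hbm x) (by positivity)
      have h7 : Ex1 (bet b) (fun x => DD (X x) x) x =
          bet b x * DD (X x + 1) x + (1 - bet b x) * DD (X x - 1) x := by
        unfold Ex1
        show bet b x * (|X (true :: x) - X (true :: x)| + DD (X (true :: x)) x) +
          (1 - bet b x) * (|X (false :: x) - X (false :: x)| + DD (X (false :: x)) x) = _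
        rw [sub_self, sub_self, abs_zero, zero_add, zero_add, X_true, X_false]
      rw [h7]
      have h8 : X x = ((pos x : ℤ) : ℝ) := rfl
      rw [h8]
      linarith
    rw [Ex_add, Ex_add, Ex_const] at h2
    linarith
  -- the sum
  have h2 : ∀ n : ℕ, ∑ k ∈ Finset.range n, Ex (bet b) (fun x => (vis x : ℝ)) k [] ≤
      Ex (bet b) (fun x => DD (X x) x) n [] + bm * (n : ℝ) ^ 2 := by
    intro n
    induction n with
    | zero => simp [Ex, X_nil, DD]
    | succ n ih =>
      rw [Finset.sum_range_succ]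
      have h3 := h1 n
      have h4 : bm * ((n : ℝ) ^ 2 + (n + 1)) ≤ bm * (((n + 1 : ℕ) : ℝ)) ^ 2 := by
        apply mul_le_mul_of_nonneg_left _ hbm0
        push_cast
        nlinarith [(Nat.cast_nonneg n : (0 : ℝ) ≤ n)]
      linarith
  have h3 : Ex (bet b) (fun x => DD (X x) x) N [] ≤ 3 * N * Real.sqrt N := by
    have h4 : Ex (bet b) (fun x => DD (X x) x) N [] ≤
        Ex (bet b) (fun x => ((N : ℝ) + 1) * |X x| + HH x) N [] := by
      refine Ex_mono (bet_mem hb) N [] ?_
      intro x hx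
      have h5 := DD_le (X x) x
      have h6 : (x.length : ℝ) = N := by rw [hx]; simp
      rw [h6] at h5
      exact h5
    rw [Ex_add, Ex_mul] at h4
    have h5 := Eabs hb hin (le_refl N) hN
    have h6 := EHH hb hin hN N (le_refl N)
    have hN1 : (1 : ℝ) ≤ N := by exact_mod_cast hN
    have h7 : ((N : ℝ) + 1) * Ex (bet b) (fun x => |X x|) N [] ≤ (N + 1) * Real.sqrt N :=
      mul_le_mul_of_nonneg_left h5 (by positivity)
    have hs : 0 ≤ Real.sqrt N := Real.sqrt_nonneg _
    nlinarith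
  have := h2 N
  linarith

end

/-! ### The drift -/

/-- the drift at the cookie `(z, i)` -/
noncomputable def del (θ a c : ℝ) (N : ℕ) (z : ℤ) (i : ℕ) : ℝ :=
  if |(z : ℝ)| ≤ a * Real.sqrt N ∧ (i : ℝ) ≤ c * Real.sqrt N then -(θ / N) * z else 0

theorem abs_del {θ a c : ℝ} (hθ : 0 ≤ θ) (ha : 0 ≤ a) {N : ℕ} (hN : 1 ≤ N) (z : ℤ) (i : ℕ) :
    |del θ a c N z i| ≤ θ * a / Real.sqrt N := by
  have hN' : (0 : ℝ) < N := by exact_mod_cast hN
  have hs : 0 < Real.sqrt N := Real.sqrt_pos.2 hN'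
  have hs2 : Real.sqrt N * Real.sqrt N = N := Real.mul_self_sqrt hN'.le
  unfold del
  split_ifs with h
  · rw [abs_mul, abs_neg, abs_of_nonneg (div_nonneg hθ hN'.le)]
    calc θ / N * |(z : ℝ)| ≤ θ / N * (a * Real.sqrt N) :=
          mul_le_mul_of_nonneg_left h.1 (div_nonneg hθ hN'.le)
      _ = θ * a / Real.sqrt N := by
          rw [div_mul_eq_mul_div, div_eq_div_iff hN'.ne' hs.ne']
          nth_rewrite 3 [← hs2]
          ring
  · rw [abs_zero]
    positivity

theorem del_mul {θ a c : ℝ} (hθ : 0 ≤ θ) {N : ℕ} (z : ℤ) (i : ℕ) :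
    (z : ℝ) * del θ a c N z i ≤ 0 := by
  unfold del
  split_ifs with h
  · have : (z : ℝ) * (-(θ / N) * z) = -((θ / N) * (z * z)) := by ring
    rw [this]
    have := mul_nonneg (div_nonneg hθ (Nat.cast_nonneg N)) (mul_self_nonneg (z : ℝ))
    linarith
  · rw [mul_zero]

/-- **The second moment is small.** -/
theorem walk_bound {θ a c : ℝ} (hθ : 0 < θ) (ha : 0 < a) (hc : 0 < c) {N : ℕ} (hN : 1 ≤ N)
    (h2θ : 2 * θ ≤ N) (h1 : θ * a ≤ Real.sqrt N) :
    Ex (bet fun h => del θ a c N (pos h) (vis h)) (fun x => X x ^ 2) N [] ≤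
      (1 / (2 * θ) + 6 * θ / a ^ 2 + 2 * θ * a ^ 2 * (3 + θ * a) / c) * N := by
  set b : List Bool → ℝ := fun h => del θ a c N (pos h) (vis h) with hbdef
  have hN' : (0 : ℝ) < N := by exact_mod_cast hN
  have hs : 0 < Real.sqrt N := Real.sqrt_pos.2 hN'
  have hs2 : Real.sqrt N * Real.sqrt N = N := Real.mul_self_sqrt hN'.le
  have hbm : ∀ h, |b h| ≤ θ * a / Real.sqrt N := fun h => abs_del hθ.le ha.le hN _ _
  have hb : ∀ h, |b h| ≤ 1 := fun h => (hbm h).trans ((div_le_one hs).2 h1)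
  have hin : ∀ h, X h * b h ≤ 0 := fun h => del_mul hθ.le _ _
  set V : ℕ → ℝ := fun k => Ex (bet b) (fun x => (vis x : ℝ)) k [] with hV
  set R : ℕ → ℝ := fun k => (2 * θ / N) * (3 * N / a ^ 2 + (a ^ 2 * Real.sqrt N / c) * V k) with hR
  have hV0 : ∀ k, 0 ≤ V k := by
    intro k
    have h2 : Ex (bet b) (fun _ => (0 : ℝ)) k [] ≤ V k :=
      Ex_mono (bet_mem hb) k [] (fun x _ => Nat.cast_nonneg _)
    rwa [Ex_const] at h2
  have hR0 : ∀ k, 0 ≤ R k := by
    intro k
    have := hV0 k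
    show 0 ≤ (2 * θ / N) * (3 * N / a ^ 2 + (a ^ 2 * Real.sqrt N / c) * V k)
    positivity
  -- one step
  have hpt : ∀ x : List Bool, 2 * X x * b x ≤ -(2 * θ / N) * X x ^ 2 +
      (2 * θ / N) * (X x ^ 4 / (a ^ 2 * N) + (a ^ 2 * Real.sqrt N / c) * vis x) := by
    intro x
    have hv0 : (0 : ℝ) ≤ vis x := Nat.cast_nonneg _
    have h2θN : 0 < 2 * θ / N := by positivity
    have e0 : 0 ≤ X x ^ 4 / (a ^ 2 * N) := by positivity
    have e1 : 0 ≤ (a ^ 2 * Real.sqrt N / c) * vis x := by positivity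
    by_cases hg : |((pos x : ℤ) : ℝ)| ≤ a * Real.sqrt N ∧ ((vis x : ℕ) : ℝ) ≤ c * Real.sqrt N
    · have h3 : b x = -(θ / N) * X x := by
        show del θ a c N (pos x) (vis x) = _
        unfold del
        rw [if_pos hg]
        rfl
      rw [h3]
      have h4 : 2 * X x * (-(θ / N) * X x) = -(2 * θ / N) * X x ^ 2 := by ring
      rw [h4]
      have := mul_nonneg h2θN.le (add_nonneg e0 e1)
      linarith
    · have h3 : b x = 0 := by
        show del θ a c N (pos x) (vis x) = _
        unfold del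
        rw [if_neg hg]
      rw [h3, mul_zero]
      have h4 : X x ^ 2 ≤ X x ^ 4 / (a ^ 2 * N) + (a ^ 2 * Real.sqrt N / c) * vis x := by
        by_cases h5 : |((pos x : ℤ) : ℝ)| ≤ a * Real.sqrt N
        · have h6 : c * Real.sqrt N < vis x := by
            by_contra h7
            exact hg ⟨h5, not_lt.1 h7⟩
          have h7 : X x ^ 2 ≤ a ^ 2 * N := by
            have h8 : X x ^ 2 = |((pos x : ℤ) : ℝ)| ^ 2 := (sq_abs _).symm
            rw [h8]
            calc |((pos x : ℤ) : ℝ)| ^ 2 ≤ (a * Real.sqrt N) ^ 2 :=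
                  pow_le_pow_left₀ (abs_nonneg _) h5 2
              _ = a ^ 2 * N := by rw [mul_pow, sq (Real.sqrt N), hs2]
          have h8 : a ^ 2 * N ≤ (a ^ 2 * Real.sqrt N / c) * vis x := by
            calc a ^ 2 * N = (a ^ 2 * Real.sqrt N / c) * (c * Real.sqrt N) := aux2 hc hs2
              _ ≤ _ := mul_le_mul_of_nonneg_left h6.le (by positivity)
          linarith
        · rw [not_le] at h5
          have h7 : a ^ 2 * N ≤ X x ^ 2 := by
            have h8 : X x ^ 2 = |((pos x : ℤ) : ℝ)| ^ 2 := (sq_abs _).symm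
            rw [h8]
            calc a ^ 2 * N = (a * Real.sqrt N) ^ 2 := by rw [mul_pow, sq (Real.sqrt N), hs2]
              _ ≤ _ := pow_le_pow_left₀ (by positivity) h5.le 2
          have h8 : X x ^ 2 ≤ X x ^ 4 / (a ^ 2 * N) := by
            rw [le_div_iff₀ (by positivity)]
            calc X x ^ 2 * (a ^ 2 * N) ≤ X x ^ 2 * X x ^ 2 :=
                  mul_le_mul_of_nonneg_left h7 (sq_nonneg _)
              _ = X x ^ 4 := by ring
          linarith
      have h5 := mul_le_mul_of_nonneg_left h4 h2θN.le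
      linarith
  have hstep : ∀ k, k ≤ N → Ex (bet b) (fun x => X x ^ 2) (k + 1) [] ≤
      (1 - 2 * θ / N) * Ex (bet b) (fun x => X x ^ 2) k [] + 1 + R k := by
    intro k hk
    rw [Ex_succ']
    have h3 : Ex (bet b) (Ex1 (bet b) fun x => X x ^ 2) k [] ≤
        Ex (bet b) (fun x => (((1 - 2 * θ / N) * X x ^ 2 + 1) +
          (2 * θ / N / (a ^ 2 * N)) * X x ^ 4) +
          (2 * θ / N * (a ^ 2 * Real.sqrt N / c)) * vis x) k [] := by
      refine Ex_mono (bet_mem hb) k [] ?_
      intro x _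
      rw [Ex1_P2]
      have h4 := hpt x
      have h5 : (2 * θ / N) * (X x ^ 4 / (a ^ 2 * N) + (a ^ 2 * Real.sqrt N / c) * vis x) =
          (2 * θ / N / (a ^ 2 * N)) * X x ^ 4 +
          (2 * θ / N * (a ^ 2 * Real.sqrt N / c)) * vis x := by ring
      rw [h5] at h4
      linarith
    rw [Ex_add, Ex_add, Ex_add, Ex_const, Ex_mul, Ex_mul, Ex_mul] at h3
    refine h3.trans ?_
    have h4 := EP4 hb hin k
    have h5 : (k : ℝ) ≤ N := by exact_mod_cast hk
    have h6 : (k : ℝ) ^ 2 ≤ (N : ℝ) ^ 2 := pow_le_pow_left₀ (Nat.cast_nonneg k) h5 2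
    have h7 : (2 * θ / N / (a ^ 2 * N)) * Ex (bet b) (fun x => X x ^ 4) k [] ≤
        (2 * θ / N) * (3 * N / a ^ 2) := by
      calc (2 * θ / N / (a ^ 2 * N)) * Ex (bet b) (fun x => X x ^ 4) k []
          ≤ (2 * θ / N / (a ^ 2 * N)) * (3 * (N : ℝ) ^ 2) :=
            mul_le_mul_of_nonneg_left (by linarith) (by positivity)
        _ = (2 * θ / N) * (3 * N / a ^ 2) := by
            field_simp
    show _ ≤ _ + 1 + (2 * θ / N) * (3 * N / a ^ 2 + (a ^ 2 * Real.sqrt N / c) * V k)
    have h8 : (2 * θ / N) * (3 * N / a ^ 2 + (a ^ 2 * Real.sqrt N / c) * V k) =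
        (2 * θ / N) * (3 * N / a ^ 2) + (2 * θ / N * (a ^ 2 * Real.sqrt N / c)) * V k := by ring
    rw [h8]
    have h9 : V k = Ex (bet b) (fun x => (vis x : ℝ)) k [] := rfl
    rw [h9]
    linarith
  have hfac : 0 ≤ 1 - 2 * θ / N := by
    have : 2 * θ / N ≤ 1 := (div_le_one hN').2 h2θ
    linarith
  have hall : ∀ k, k ≤ N → Ex (bet b) (fun x => X x ^ 2) k [] ≤
      N / (2 * θ) + ∑ j ∈ Finset.range k, R j := by
    intro k
    induction k with
    | zero =>
      intro _
      simp only [Ex, X_nil, Finset.range_zero, Finset.sum_empty]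
      have : 0 ≤ (N : ℝ) / (2 * θ) := by positivity
      linarith
    | succ k ih =>
      intro hk
      have h3 := ih (by omega)
      have h4 := hstep k (by omega)
      rw [Finset.sum_range_succ]
      have h5 : 0 ≤ ∑ j ∈ Finset.range k, R j := Finset.sum_nonneg fun j _ => hR0 j
      have h6 := mul_le_mul_of_nonneg_left h3 hfac
      have h7 : (1 - 2 * θ / N) * (N / (2 * θ) + ∑ j ∈ Finset.range k, R j) =
          N / (2 * θ) - 1 + (1 - 2 * θ / N) * ∑ j ∈ Finset.range k, R j := by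
        have : 2 * θ / N * (N / (2 * θ)) = 1 := by field_simp
        linear_combination -this
      have h8 : (1 - 2 * θ / N) * ∑ j ∈ Finset.range k, R j ≤ ∑ j ∈ Finset.range k, R j := by
        have : 0 ≤ 2 * θ / N * ∑ j ∈ Finset.range k, R j := by positivity
        linarith
      linarith
  have h3 := hall N (le_refl N)
  have h4 := Evis hb hin hbm hN
  have h5 : ∑ j ∈ Finset.range N, R j = 6 * θ / a ^ 2 * N +
      (2 * θ / N * (a ^ 2 * Real.sqrt N / c)) * ∑ k ∈ Finset.range N, V k := by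
    have h6 : ∀ j, R j = (2 * θ / N) * (3 * N / a ^ 2) +
        (2 * θ / N * (a ^ 2 * Real.sqrt N / c)) * V j := by
      intro j
      show (2 * θ / N) * (3 * N / a ^ 2 + (a ^ 2 * Real.sqrt N / c) * V j) = _
      ring
    simp_rw [h6]
    rw [Finset.sum_add_distrib, Finset.sum_const, Finset.card_range, nsmul_eq_mul,
      ← Finset.mul_sum]
    congr 1
    field_simp
    ring
  have h6 : (2 * θ / N * (a ^ 2 * Real.sqrt N / c)) * ∑ k ∈ Finset.range N, V k ≤
      2 * θ * a ^ 2 * (3 + θ * a) / c * N := by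
    calc (2 * θ / N * (a ^ 2 * Real.sqrt N / c)) * ∑ k ∈ Finset.range N, V k
        ≤ (2 * θ / N * (a ^ 2 * Real.sqrt N / c)) *
            (3 * N * Real.sqrt N + θ * a / Real.sqrt N * (N : ℝ) ^ 2) :=
          mul_le_mul_of_nonneg_left h4 (by positivity)
      _ = 2 * θ * a ^ 2 * (3 + θ * a) / c * N := by
          have h7 : θ * a / Real.sqrt N * (N : ℝ) ^ 2 = θ * a * N * Real.sqrt N := by
            rw [div_mul_eq_mul_div, div_eq_iff hs.ne']
            calc θ * a * (N : ℝ) ^ 2 = θ * a * N * N := by ring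
              _ = θ * a * N * (Real.sqrt N * Real.sqrt N) := by rw [hs2]
              _ = _ := by ring
          rw [h7]
          have h8 : (2 * θ / N * (a ^ 2 * Real.sqrt N / c)) *
              (3 * N * Real.sqrt N + θ * a * N * Real.sqrt N) =
              2 * θ * a ^ 2 * (3 + θ * a) / c * (Real.sqrt N * Real.sqrt N) := by
            field_simp
          rw [h8, hs2]
  have h7 : (N : ℝ) / (2 * θ) = 1 / (2 * θ) * N := by ring
  rw [h5] at h3
  rw [h7] at h3
  linarith

end Pool.Agent.MP0d3db7
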