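import Pool.Agent.Lib.MP_0d3db7.Lam

/-!
# MP_0d3db7_pr: the densities converge weakly to 1
-/

set_option autoImplicit false

namespace Pool.Agent.MP0d3db7

open MeasureTheory ProbabilityTheory Filter Topology

/-- approximation of measurable sets -/
theorem approx {Ω : Type} {mΩ : MeasurableSpace Ω} (P : Measure Ω) [IsProbabilityMeasure P]
    (F : ℕ → MeasurableSpace Ω) (hF : Monotone F) (hle : ∀ m, F m ≤ mΩ) {A : Set Ω}
    (hA : MeasurableSet[⨆ m, F m] A) {ε : ENNReal} (hε : 0 < ε) :
    ∃ (m : ℕ) (B : Set Ω), MeasurableSet[F m] B ∧ P (symmDiff B A) < ε := by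
  have hle' : (⨆ m, F m) ≤ mΩ := iSup_le hle
  have hgen : (⨆ m, F m) = MeasurableSpace.generateFrom {s | ∃ n, MeasurableSet[F n] s} :=
    MeasurableSpace.measurableSpace_iSup_eq F
  have hring : IsSetAlgebra {s | ∃ n, MeasurableSet[F n] s} := by
    refine ⟨⟨0, @MeasurableSet.empty _ (F 0)⟩, ?_, ?_⟩
    · rintro s ⟨n, hn⟩
      exact ⟨n, @MeasurableSet.compl _ _ (F n) hn⟩
    · rintro s t ⟨n, hn⟩ ⟨m, hm⟩
      exact ⟨max n m, @MeasurableSet.union _ (F (max n m)) _ _
        (hF (le_max_left n m) _ hn) (hF (le_max_right n m) _ hm)⟩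
  haveI : IsFiniteMeasure (P.trim hle') := isFiniteMeasure_trim hle'
  obtain ⟨t, ⟨m, ht⟩, hlt⟩ := @exists_measure_symmDiff_lt_of_generateFrom_isSetRing Ω
    (⨆ m, F m) (P.trim hle') _ _ hring.isSetRing
    ⟨{Set.univ}, Set.countable_singleton _, by
      rw [Set.singleton_subset_iff]
      exact ⟨0, @MeasurableSet.univ _ (F 0)⟩, by simp⟩ hgen A hA ε hε
  refine ⟨m, t, ht, ?_⟩
  have h1 : MeasurableSet[⨆ m, F m] t := (le_iSup F m) _ ht
  rwa [trim_measurableSet_eq hle' (@MeasurableSet.symmDiff _ (⨆ m, F m) _ _ h1 hA)] at hlt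

section

variable {Ω : Type} [mΩ : MeasurableSpace Ω] {P : Measure Ω} {W : ℤ × ℕ → Ω → ℝ} {s2 : ℝ}

/-- the σ-algebra of the cookies in `SS m` -/
def FF (W : ℤ × ℕ → Ω → ℝ) (m : ℕ) : MeasurableSpace Ω :=
  ⨆ κ ∈ (SS m : Set (ℤ × ℕ)), MeasurableSpace.comap (W κ) inferInstance

theorem FF_mono : Monotone (FF W) := by
  intro m n hmn
  refine iSup₂_le fun κ hκ => ?_
  exact le_iSup₂_of_le κ (Finset.mem_coe.2 (SS_mono hmn (Finset.mem_coe.1 hκ))) le_rfl

theorem FF_le (hm : ∀ κ, Measurable (W κ)) (m : ℕ) : FF W m ≤ mΩ :=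
  iSup₂_le fun κ _ => (hm κ).comap_le

theorem FF_iSup : (⨆ m, FF W m) = ⨆ κ, MeasurableSpace.comap (W κ) inferInstance := by
  apply le_antisymm
  · refine iSup_le fun m => iSup₂_le fun κ _ => ?_
    exact le_iSup (fun κ => MeasurableSpace.comap (W κ) inferInstance) κ
  · refine iSup_le fun κ => ?_
    have hκ : κ ∈ SS (κ.1.natAbs + κ.2) := by
      rw [mem_SS]
      refine ⟨?_, by omega⟩
      push_cast
      have : |κ.1| = (κ.1.natAbs : ℤ) := Int.abs_eq_natAbs κ.1
      omega
    refine le_trans ?_ (le_iSup (FF W) (κ.1.natAbs + κ.2))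
    exact le_iSup₂_of_le κ (Finset.mem_coe.2 hκ) le_rfl

theorem del_tendsto {θ a c : ℝ} (hθ : 0 ≤ θ) (ha : 0 ≤ a) (z : ℤ) (i : ℕ) :
    Tendsto (fun N => del θ a c N z i) atTop (𝓝 0) := by
  have h1 : Tendsto (fun N : ℕ => θ * a / Real.sqrt N) atTop (𝓝 0) :=
    tendsto_const_nhds.div_atTop (Real.tendsto_sqrt_atTop.comp tendsto_natCast_atTop_atTop)
  refine squeeze_zero_norm' ?_ h1
  filter_upwards [eventually_ge_atTop 1] with N hN
  rw [Real.norm_eq_abs]
  exact abs_del hθ ha hN z i

theorem Lam_meas {m' : MeasurableSpace Ω} {S : Finset (ℤ × ℕ)}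
    (hW : ∀ κ ∈ S, Measurable[m'] (W κ)) (s2 θ a c : ℝ) (N : ℕ) :
    Measurable[m'] (Lam W s2 θ a c N S) := by
  unfold Lam
  refine Finset.measurable_fun_prod S fun κ hκ => ?_
  exact (lam_bd s2 (del θ a c N κ.1 κ.2)).1.comp (hW κ hκ)

theorem abs_del' {θ a c : ℝ} (hθ : 0 ≤ θ) (ha : 0 ≤ a) (N : ℕ) (z : ℤ) (i : ℕ) :
    |del θ a c N z i| ≤ θ * a := by
  rcases Nat.eq_zero_or_pos N with h | h
  · subst h
    have : del θ a c 0 z i = 0 := by
      unfold del
      split_ifs <;> simp
    rw [this, abs_zero]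
    positivity
  · refine (abs_del hθ ha h z i).trans ?_
    have h1 : (1 : ℝ) ≤ N := by exact_mod_cast h
    have h2 : 1 ≤ Real.sqrt N := by
      rw [show (1 : ℝ) = Real.sqrt 1 by simp]
      exact Real.sqrt_le_sqrt h1
    exact div_le_self (by positivity) h2

/-- cylinder sets -/
theorem Env.cyl (hE : Env P W s2) {θ a c : ℝ} (hθ : 0 ≤ θ) (ha : 0 ≤ a) (m : ℕ) {B : Set Ω}
    (hB : MeasurableSet[FF W m] B) :
    Tendsto (fun N => ∫ o in B, Lam W s2 θ a c N (SS N) o ∂P) atTop (𝓝 (P.real B)) := by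
  classical
  haveI := hE.pr
  have hBm : MeasurableSet B := FF_le hE.meas m _ hB
  -- only the cookies in `SS m` matter
  have h1 : ∀ N, m ≤ N → ∫ o in B, Lam W s2 θ a c N (SS N) o ∂P =
      ∫ o in B, Lam W s2 θ a c N (SS m) o ∂P := by
    intro N hN
    have hsub : SS m ⊆ SS N := SS_mono hN
    set f : Ω → ℝ := fun o => B.indicator (fun _ => (1 : ℝ)) o * Lam W s2 θ a c N (SS m) o with hf
    set g : Ω → ℝ := Lam W s2 θ a c N (SS N \ SS m) with hg
    have hsplit : ∀ o, B.indicator (Lam W s2 θ a c N (SS N)) o = f o * g o := by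
      intro o
      have h2 : Lam W s2 θ a c N (SS N) o =
          Lam W s2 θ a c N (SS N \ SS m) o * Lam W s2 θ a c N (SS m) o := by
        unfold Lam
        rw [Finset.prod_sdiff hsub]
      by_cases ho : o ∈ B
      · rw [Set.indicator_of_mem ho, h2]
        show _ = B.indicator (fun _ => (1 : ℝ)) o * _ * _
        rw [Set.indicator_of_mem ho]
        ring
      · rw [Set.indicator_of_notMem ho]
        show _ = B.indicator (fun _ => (1 : ℝ)) o * _ * _
        rw [Set.indicator_of_notMem ho]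
        ring
    have hfm : Measurable[FF W m] f := by
      refine Measurable.mul (Measurable.indicator measurable_const hB) ?_
      refine Lam_meas (fun κ hκ => ?_) s2 θ a c N
      exact measurable_iff_comap_le.2 (le_iSup₂_of_le κ (Finset.mem_coe.2 hκ) le_rfl)
    have hgm : Measurable[⨆ κ ∈ ((SS m : Set (ℤ × ℕ))ᶜ),
        MeasurableSpace.comap (W κ) inferInstance] g := by
      refine Lam_meas (fun κ hκ => ?_) s2 θ a c N
      have h3 : κ ∈ ((SS m : Set (ℤ × ℕ))ᶜ) := fun h => (Finset.mem_sdiff.1 hκ).2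
        (Finset.mem_coe.1 h)
      exact measurable_iff_comap_le.2 (le_iSup₂_of_le κ h3 le_rfl)
    have hind : IndepFun f g P := by
      rw [IndepFun_iff_Indep]
      have h3 : Indep (⨆ κ ∈ (SS m : Set (ℤ × ℕ)), MeasurableSpace.comap (W κ) inferInstance)
          (⨆ κ ∈ ((SS m : Set (ℤ × ℕ))ᶜ), MeasurableSpace.comap (W κ) inferInstance) P :=
        indep_iSup_of_disjoint (fun κ => (hE.meas κ).comap_le)
          ((iIndepFun_iff_iIndep _ _ _).1 hE.ind) disjoint_compl_right
      exact indep_of_indep_of_le h3 (measurable_iff_comap_le.1 hfm)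
        (measurable_iff_comap_le.1 hgm)
    have hfm' : Measurable f := hfm.mono (FF_le hE.meas m) le_rfl
    have hgm' : Measurable g := hgm.mono (iSup₂_le fun κ _ => (hE.meas κ).comap_le) le_rfl
    rw [← integral_indicator hBm, ← integral_indicator hBm]
    calc ∫ o, B.indicator (Lam W s2 θ a c N (SS N)) o ∂P = ∫ o, f o * g o ∂P := by
          simp_rw [hsplit]
      _ = (∫ o, f o ∂P) * ∫ o, g o ∂P :=
          hind.integral_fun_mul_eq_mul_integral hfm'.aestronglyMeasurable
            hgm'.aestronglyMeasurable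
      _ = ∫ o, f o ∂P := by rw [hE.Lam_one, mul_one]
      _ = ∫ o, B.indicator (Lam W s2 θ a c N (SS m)) o ∂P := by
          congr 1
          funext o
          by_cases ho : o ∈ B
          · rw [Set.indicator_of_mem ho]
            show B.indicator (fun _ => (1 : ℝ)) o * _ = _
            rw [Set.indicator_of_mem ho, one_mul]
          · rw [Set.indicator_of_notMem ho]
            show B.indicator (fun _ => (1 : ℝ)) o * _ = _
            rw [Set.indicator_of_notMem ho, zero_mul]
  -- the limit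
  have h2 : Tendsto (fun N => ∫ o in B, Lam W s2 θ a c N (SS m) o ∂P) atTop
      (𝓝 (∫ _ in B, (1 : ℝ) ∂P)) := by
    refine tendsto_integral_of_dominated_convergence
      (fun _ => (1 + θ * a / s2) ^ (SS m).card) ?_ (integrable_const _) ?_ ?_
    · intro N
      exact (hE.Lam_int θ a c N (SS m)).aestronglyMeasurable.restrict
    · intro N
      refine Eventually.of_forall fun o => ?_
      unfold Lam
      rw [Real.norm_eq_abs, Finset.abs_prod]
      calc ∏ κ ∈ SS m, |lam s2 (del θ a c N κ.1 κ.2) (W κ o)|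
          ≤ ∏ _κ ∈ SS m, (1 + θ * a / s2) := by
            refine Finset.prod_le_prod (fun _ _ => abs_nonneg _) fun κ _ => ?_
            have h3 := lam_dist (δ := del θ a c N κ.1 κ.2) hE.spos (hE.mem κ o).1 (hE.mem κ o).2
            have h4 : |del θ a c N κ.1 κ.2| / s2 ≤ θ * a / s2 :=
              div_le_div_of_nonneg_right (abs_del' hθ ha N κ.1 κ.2) hE.spos.le
            have h5 := abs_sub_abs_le_abs_sub (lam s2 (del θ a c N κ.1 κ.2) (W κ o)) 1
            rw [abs_one] at h5
            linarith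
        _ = (1 + θ * a / s2) ^ (SS m).card := by rw [Finset.prod_const]
    · refine Eventually.of_forall fun o => ?_
      have h3 : Tendsto (fun N => ∏ κ ∈ SS m, lam s2 (del θ a c N κ.1 κ.2) (W κ o)) atTop
          (𝓝 (∏ _κ ∈ SS m, 1)) := by
        refine tendsto_finset_prod _ fun κ _ => ?_
        have h4 : Tendsto (fun N => 1 + del θ a c N κ.1 κ.2 * (2 * W κ o - 1) / s2) atTop
            (𝓝 (1 + 0 * (2 * W κ o - 1) / s2)) :=
          (((del_tendsto hθ ha κ.1 κ.2).mul_const _).div_const _).const_add 1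
        simpa [lam] using h4
      simpa [Lam] using h3
  have h3 : ∫ _ in B, (1 : ℝ) ∂P = P.real B := by simp
  rw [h3] at h2
  refine h2.congr' ?_
  filter_upwards [eventually_ge_atTop m] with N hN
  exact (h1 N hN).symm

/-- **The densities converge weakly to 1.** -/
theorem Env.weak (hE : Env P W s2) {θ a c : ℝ} (hθ : 0 ≤ θ) (ha : 0 ≤ a) (hc : 0 ≤ c)
    {A : Set Ω} (hA : MeasurableSet[⨆ κ, MeasurableSpace.comap (W κ) inferInstance] A) :
    Tendsto (fun N => ∫ o in A, Lam W s2 θ a c N (SS N) o ∂P) atTop (𝓝 (P.real A)) := by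
  classical
  haveI := hE.pr
  rw [← FF_iSup] at hA
  have hAm : MeasurableSet A := (iSup_le (FF_le hE.meas)) _ hA
  set M : ℝ := Real.exp ((2 * a + 1) * (c + 1) * (θ * a) ^ 2 / s2) with hM
  have hM0 : 0 < M := Real.exp_pos _
  rw [Metric.tendsto_atTop]
  intro ε hε
  set t : ℝ := ε / (4 * M) with ht
  have ht0 : 0 < t := by positivity
  set η : ℝ := min (ε / 4) (ε * t / 4) with hη
  have hη0 : 0 < η := lt_min (by positivity) (by positivity)
  obtain ⟨m, B, hB, hlt⟩ := approx P (FF W) FF_mono (FF_le hE.meas) hA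
    (ε := ENNReal.ofReal η) (ENNReal.ofReal_pos.2 hη0)
  have hBm : MeasurableSet B := FF_le hE.meas m _ hB
  set D : Set Ω := symmDiff B A with hD
  have hDm : MeasurableSet D := hBm.symmDiff hAm
  have hDr : P.real D < η := by
    rw [Measure.real, ← ENNReal.toReal_ofReal hη0.le]
    exact (ENNReal.toReal_lt_toReal (measure_ne_top _ _) ENNReal.ofReal_ne_top).2 hlt
  obtain ⟨N₀, hN₀⟩ := Metric.tendsto_atTop.1 (hE.cyl (c := c) hθ ha m hB) (ε / 4) (by positivity)
  refine ⟨max N₀ 1, fun N hN => ?_⟩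
  have hN1 : 1 ≤ N := (le_max_right _ _).trans hN
  have h1 := hN₀ N ((le_max_left _ _).trans hN)
  obtain ⟨hsqi, hsq⟩ := hE.Lam_sq (c := c) hθ ha hc hN1 (SS N)
  have hLi := hE.Lam_int θ a c N (SS N)
  set L : Ω → ℝ := Lam W s2 θ a c N (SS N) with hL
  -- the difference of the integrals
  have h2 : |∫ o in A, L o ∂P - ∫ o in B, L o ∂P| ≤ t / 2 * M + P.real D / (2 * t) := by
    rw [← integral_indicator hAm, ← integral_indicator hBm, ← integral_sub
      (hLi.indicator hAm) (hLi.indicator hBm)]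
    have h3 : ∀ o, |A.indicator L o - B.indicator L o| ≤
        t / 2 * L o ^ 2 + (1 / (2 * t)) * D.indicator (fun _ => (1 : ℝ)) o := by
      intro o
      have h4 : 0 ≤ t / 2 * L o ^ 2 := by positivity
      by_cases hoD : o ∈ D
      · have h5 : |A.indicator L o - B.indicator L o| ≤ |L o| := by
          by_cases hoA : o ∈ A
          · have hoB : o ∉ B := by
              intro hoB
              rcases hoD with h | h
              · exact h.2 hoA
              · exact h.2 hoB
            rw [Set.indicator_of_mem hoA, Set.indicator_of_notMem hoB, sub_zero]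
          · rw [Set.indicator_of_notMem hoA, zero_sub, abs_neg]
            by_cases hoB : o ∈ B
            · rw [Set.indicator_of_mem hoB]
            · rw [Set.indicator_of_notMem hoB, abs_zero]; exact abs_nonneg _
        rw [Set.indicator_of_mem hoD, mul_one]
        refine h5.trans ?_
        have h6 : 0 ≤ (t * |L o| - 1) ^ 2 := sq_nonneg _
        have h7 : |L o| ^ 2 = L o ^ 2 := sq_abs _
        have h8 : t / 2 * L o ^ 2 + 1 / (2 * t) = (t ^ 2 * L o ^ 2 + 1) / (2 * t) := by
          field_simp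
        rw [h8, le_div_iff₀ (by positivity)]
        nlinarith
      · have h5 : A.indicator L o - B.indicator L o = 0 := by
          by_cases hoA : o ∈ A
          · have hoB : o ∈ B := by
              by_contra hoB
              exact hoD (Or.inr ⟨hoA, hoB⟩)
            rw [Set.indicator_of_mem hoA, Set.indicator_of_mem hoB, sub_self]
          · have hoB : o ∉ B := fun hoB => hoD (Or.inl ⟨hoB, hoA⟩)
            rw [Set.indicator_of_notMem hoA, Set.indicator_of_notMem hoB, sub_self]
        rw [h5, abs_zero, Set.indicator_of_notMem hoD, mul_zero, add_zero]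
        exact h4
    have hDi : Integrable (D.indicator fun _ => (1 : ℝ)) P := (integrable_const 1).indicator hDm
    calc |∫ o, (A.indicator L o - B.indicator L o) ∂P|
        ≤ ∫ o, |A.indicator L o - B.indicator L o| ∂P := abs_integral_le_integral_abs
      _ ≤ ∫ o, (t / 2 * L o ^ 2 + (1 / (2 * t)) * D.indicator (fun _ => (1 : ℝ)) o) ∂P := by
          refine integral_mono_of_nonneg (Eventually.of_forall fun _ => abs_nonneg _)
            ((hsqi.const_mul _).add (hDi.const_mul _)) (Eventually.of_forall h3)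
      _ = t / 2 * ∫ o, L o ^ 2 ∂P + (1 / (2 * t)) * P.real D := by
          rw [integral_add (hsqi.const_mul _) (hDi.const_mul _), integral_const_mul,
            integral_const_mul, integral_indicator_const _ hDm]
          simp
      _ ≤ t / 2 * M + P.real D / (2 * t) := by
          have h4 : t / 2 * ∫ o, L o ^ 2 ∂P ≤ t / 2 * M :=
            mul_le_mul_of_nonneg_left hsq (by positivity)
          have h5 : (1 / (2 * t)) * P.real D = P.real D / (2 * t) := by ring
          linarith
  have h3 : |P.real B - P.real A| ≤ P.real D :=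
    abs_measureReal_sub_le_measureReal_symmDiff hBm.nullMeasurableSet hAm.nullMeasurableSet
  have h4 : t / 2 * M = ε / 8 := by
    rw [ht]; field_simp; ring
  have h5 : P.real D / (2 * t) ≤ ε / 8 := by
    rw [div_le_iff₀ (by positivity)]
    have := (min_le_right (ε / 4) (ε * t / 4))
    linarith
  have h6 : P.real D < ε / 4 := hDr.trans_le (min_le_left _ _)
  rw [Real.dist_eq] at h1 ⊢
  have h7 := abs_lt.1 h1
  have h8 := abs_le.1 h2
  have h9 := abs_le.1 h3
  rw [abs_lt]
  constructor <;> linarith [h7.1, h7.2, h8.1, h8.2, h9.1, h9.2]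

end

end Pool.Agent.MP0d3db7
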